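import Pool.Agent.Run7.h661.V.Main

/-!
# Starting the flow at a positive time: a flow which is smooth up to the initial time
-/

open Set Filter Topology
open scoped Real ContDiff

namespace Run7.h661v

open Run7.h661x Run7.h661z
open Run7.h661y (cang cang0 cang1 cang2 HypE xa ya yM rr rr_pos tendsto_rr rr_sq)

section
variable {ι : Type*} [Fintype ι] {Ω : Set ℂ} {T t0 : ℝ} {γ : ι → ℝ → ℝ → ℂ}

lemma shift_smooth (F : IsNetworkFlow Ω T γ) (h0 : 0 < t0) (i : ι) :
    ContDiffOn ℝ ∞ (fun q : ℝ × ℝ => γ i (q.1 + t0) q.2) (Ico 0 (T - t0) ×ˢ Icc 0 1) := by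
  have h1 : ContDiff ℝ ∞ (fun q : ℝ × ℝ => (q.1 + t0, q.2)) := by fun_prop
  refine (F.smooth i).comp h1.contDiffOn (fun q hq => ⟨⟨?_, ?_⟩, hq.2⟩)
  · have := hq.1.1
    show 0 < q.1 + t0
    linarith
  · have := hq.1.2
    show q.1 + t0 < T
    linarith

/-- time shift of a flow -/
lemma shift_flow (F : IsNetworkFlow Ω T γ) (h0 : 0 < t0)
    (hf : ∀ e : ι × Bool, ∀ t ∈ Ico t0 T, endpt (fun i => γ i t0) e ∈ frontier Ω →
      endpt (fun i => γ i t) e = endpt (fun i => γ i t0) e) :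
    IsNetworkFlow Ω (T - t0) (fun i t => γ i (t + t0)) := by
  have hm : ∀ {t : ℝ}, t ∈ Ico 0 (T - t0) → t + t0 ∈ Ioo 0 T := fun {t} ht =>
    ⟨by linarith [ht.1], by linarith [ht.2]⟩
  have hcm : ContinuousOn (fun q : ℝ × ℝ => (q.1 + t0, q.2)) (Ico 0 (T - t0) ×ˢ Icc 0 1) := by
    fun_prop
  refine ⟨fun i => (shift_smooth F h0 i).mono (prod_mono Ioo_subset_Ico_self subset_rfl),
    fun i => (shift_smooth F h0 i).continuousOn, fun i => ?_,
    fun t ht => F.network _ ⟨(hm ht).1.le, (hm ht).2⟩, fun e t ht he => ?_,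
    fun i t ht p hp => ?_⟩
  · exact (F.cont_deriv i).comp hcm (fun q hq => ⟨⟨(hm hq.1).1.le, (hm hq.1).2⟩, hq.2⟩)
  · have e0 : (fun i => γ i (0 + t0)) = fun i => γ i t0 := by rw [zero_add]
    rw [e0] at he ⊢
    exact hf e (t + t0) ⟨by linarith [ht.1], by linarith [ht.2]⟩ he
  · have := F.motion i (t + t0) (hm ⟨ht.1.le, ht.2⟩) p hp
    rw [← this]
    congr 1
    exact deriv_comp_add_const (fun s => γ i s p) t0 t

end

/-- a flow with such a blow-up cannot be continued -/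
lemma singular_of_cell {Ω : Set ℂ} {T : ℝ} {γ : Arc → ℝ → ℝ → ℂ} (hT0 : 0 < T) {t : ℕ → ℝ} {b : ℝ}
    {C : ℝ → ℂ} (ht : ∀ n, t n ∈ Ioo 0 T) (hlim : Tendsto t atTop (𝓝 T))
    (hc : ConvergesToCell (fun n i => rescale T (t n) 0 (γ i (t n))) b C) :
    IsSingularTime Ω T γ := by
  rintro ⟨κ, hκ, T', γ', hT, F', him⟩
  choose j hj using fun n => him (t n) ⟨(ht n).1.le, (ht n).2⟩ (.short true true)
  obtain ⟨k, hk⟩ : ∃ k : κ, ∃ᶠ n in atTop, j n = k := by
    by_contra hcon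
    push Not at hcon
    have h1 : ∀ᶠ n in (atTop : Filter ℕ), ∀ k : κ, j n ≠ k := by
      rw [eventually_all]
      intro k
      exact hcon k
    obtain ⟨n, hn⟩ := h1.exists
    exact hn (j n) rfl
  have hr0 : Tendsto (fun n => (b + 1) * √(2 * (T - t n))) atTop (𝓝 0) := by
    have h1 : Tendsto (fun n => 2 * (T - t n)) atTop (𝓝 0) := by
      have := (hlim.const_sub T).const_mul 2
      simpa using this
    have h2 := (h1.sqrt).const_mul (b + 1)
    simpa using h2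
  -- the short curve collapses
  have hsm : ∀ᶠ n in atTop, ∀ p ∈ Icc (0:ℝ) 1,
      ‖γ (.short true true) (t n) p‖ ≤ (b + 1) * √(2 * (T - t n)) := by
    filter_upwards [hc.short true true 1 one_pos] with n hn p hp
    have h1 := hn p hp
    have hs : 0 < √(2 * (T - t n)) := Real.sqrt_pos.2 (by linarith [(ht n).2])
    have h2 : ‖rescale T (t n) 0 (γ (.short true true) (t n)) p‖ ≤ b + 1 := by
      have h3 : ‖((sg true : ℂ) * b)‖ = b := by
        have : ((sg true : ℂ) * b) = (b : ℂ) := by simp [sg]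
        rw [this, Complex.norm_real, Real.norm_eq_abs, abs_of_pos hc.b_pos]
      have h4 := norm_le_norm_add_norm_sub' (rescale T (t n) 0 (γ (.short true true) (t n)) p)
        ((sg true : ℂ) * b)
      rw [h3] at h4
      linarith
    rw [rescale, sub_zero, norm_div, Complex.norm_real, Real.norm_eq_abs, abs_of_pos hs,
      div_le_iff₀ hs] at h2
    exact h2
  have hzero : ∀ p ∈ Icc (0:ℝ) 1, γ' k T p = 0 := by
    intro p hp
    have h1 : Tendsto (fun n => γ' k (t n) p) atTop (𝓝 (γ' k T p)) := by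
      have hcn := F'.cont k (T, p) ⟨⟨hT0.le, hT⟩, hp⟩
      have h2 : Tendsto (fun n => ((t n, p) : ℝ × ℝ)) atTop
          (𝓝[Ico 0 T' ×ˢ Icc 0 1] (T, p)) := by
        refine tendsto_nhdsWithin_iff.2 ⟨hlim.prodMk_nhds tendsto_const_nhds,
          Eventually.of_forall (fun n => ⟨⟨(ht n).1.le, (ht n).2.trans hT⟩, hp⟩)⟩
      exact hcn.tendsto.comp h2
    by_contra hne
    have hpos : 0 < ‖γ' k T p‖ := norm_pos_iff.2 hne
    have e1 := h1.norm.eventually (lt_mem_nhds (half_lt_self hpos))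
    have e2 := hr0.eventually (gt_mem_nhds (half_pos hpos))
    obtain ⟨n, hn, a1, a2, a3⟩ := (hk.and_eventually (e1.and (e2.and hsm))).exists
    have hm : γ' k (t n) p ∈ γ (.short true true) (t n) '' Icc 0 1 := by
      rw [← hj n, hn]
      exact ⟨p, hp, rfl⟩
    obtain ⟨q, hq, hqe⟩ := hm
    have h4 := a3 q hq
    rw [hqe] at h4
    linarith
  have hi := (F'.network T ⟨hT0.le, hT⟩).embedded k
  have z0 : (0:ℝ) ∈ Icc (0:ℝ) 1 := ⟨le_refl _, zero_le_one⟩
  have z1 : (1:ℝ) ∈ Icc (0:ℝ) 1 := ⟨zero_le_one, le_refl _⟩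
  have := hi z0 z1 ((hzero 0 z0).trans (hzero 1 z1).symm)
  norm_num at this

/-- the end-points on the boundary do not move -/
lemma NN_fixed {g : Fin 3 → ℝ → ℝ → ℂ} {a : AFd} {T1 : ℝ} (S : St T1 a g) (e : Arc × Bool)
    {t t' : ℝ} (ht : t ∈ Ico 0 T1) (ht' : t' ∈ Ico 0 T1)
    (he : endpt (fun i => (NN a i).c t) e ∈ frontier (Metric.ball (0:ℂ) rB)) :
    endpt (fun i => (NN a i).c t') e = endpt (fun i => (NN a i).c t) e := by
  obtain ⟨xa, ya, φ, xb, N⟩ := NN_ns S ht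
  obtain ⟨xa', ya', φ', xb', N'⟩ := NN_ns S ht'
  have hv : ¬ (lab e).inn := by
    intro hv
    have h1 := N.inn_iff e hv
    have h2 : endpt (fun i => (NN a i).c t) e ∈ Metric.sphere (0:ℂ) rB := by
      rw [← frontier_ball (0:ℂ) (rB_pos (R := RR) hh_pos).ne' (r := rB)]; exact he
    rw [mem_sphere_zero_iff_norm] at h2
    rw [mem_ball_zero_iff] at h1
    exact absurd h2 h1.ne
  obtain ⟨a1, a2⟩ := N.endpt_re e
  obtain ⟨b1, b2⟩ := N'.endpt_re e
  apply Complex.ext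
  · refine b1.trans (Eq.trans ?_ a1.symm)
    generalize lab e = v at hv
    cases v with
    | a σ τ => exact absurd trivial hv
    | b σ => exact absurd trivial hv
    | e σ τ => rfl
  · refine b2.trans (Eq.trans ?_ a2.symm)
    generalize lab e = v at hv
    cases v with
    | a σ τ => exact absurd trivial hv
    | b σ => exact absurd trivial hv
    | e σ τ => rfl

/-- The main theorem, with a flow which is smooth up to the initial time. -/
theorem main2 : ∃ (r T : ℝ) (γ : Arc → ℝ → ℝ → ℂ), 0 < r ∧ 0 < T ∧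
    IsNetworkFlow (Metric.ball (0:ℂ) r) T γ ∧
    (∀ i, ContDiffOn ℝ ∞ (fun q : ℝ × ℝ => γ i q.1 q.2) (Ico 0 T ×ˢ Icc 0 1)) ∧
    IsSingularTime (Metric.ball (0:ℂ) r) T γ ∧
    ∃ (t : ℕ → ℝ) (b : ℝ) (C : ℝ → ℂ), (∀ n, t n ∈ Ioo 0 T) ∧ Tendsto t atTop (𝓝 T) ∧
      ConvergesToCell (fun n i => rescale T (t n) 0 (γ i (t n))) b C := by
  obtain ⟨g, S⟩ := exists_flow
  obtain ⟨t, b, C, ht, hlim, hc⟩ := cell S
  have F := NN_flow S
  have h8 : (0:ℝ) < 1 / 8 := by norm_num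
  have hts : ∀ n, t n - 1 / 8 ∈ Ioo 0 (1 / 2 - 1 / 8 : ℝ) := fun n =>
    ⟨by linarith [(ht n).1], by linarith [(ht n).2]⟩
  have hls : Tendsto (fun n => t n - 1 / 8) atTop (𝓝 (1 / 2 - 1 / 8)) := hlim.sub_const _
  have hcs : ConvergesToCell (fun n i => rescale (1 / 2 - 1 / 8) (t n - 1 / 8) 0
      ((NN AA i).c (t n - 1 / 8 + 1 / 8))) b C := by
    have e : (fun n i => rescale (1 / 2 - 1 / 8) (t n - 1 / 8) 0
        ((NN AA i).c (t n - 1 / 8 + 1 / 8))) =
        (fun n i => rescale (1 / 2) (t n) 0 ((NN AA i).c (t n))) := by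
      funext n i p
      rw [rescale, rescale, sub_add_cancel]
      have : (1 / 2 - 1 / 8 - (t n - 1 / 8) : ℝ) = 1 / 2 - t n := by ring
      rw [this]
    rw [e]
    exact hc
  refine ⟨rB, 1 / 2 - 1 / 8, fun i s => (NN AA i).c (s + 1 / 8), rB_pos hh_pos, by norm_num,
    shift_flow F h8 (fun e s hs he => NN_fixed S e ⟨by norm_num, by norm_num⟩
      ⟨h8.le.trans hs.1, hs.2⟩ he), fun i => shift_smooth F h8 i,
    singular_of_cell (by norm_num) hts hls hcs, _, b, C, hts, hls, hcs⟩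

end Run7.h661v
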