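import Pool.Agent.Run7.h661.X.Reg

/-!
# Limits of curves satisfying the shrinker equation approximately
-/

open Set Filter Topology
open scoped Real ContDiff

namespace Run7.h661v

open Run7.h661x

/-- the integral from `0`, of the extension by constants -/
noncomputable def In (f : ℝ → ℝ) (p : ℝ) : ℝ := ∫ q in (0:ℝ)..p, f (clamp q)

lemma clamp_cont : Continuous clamp := dom_I.cont

lemma cc {f : ℝ → ℝ} (hf : ContinuousOn f (Icc 0 1)) : Continuous (fun q => f (clamp q)) := by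
  rw [← continuousOn_univ]
  exact hf.comp clamp_cont.continuousOn (fun q _ => clamp_mem q)

lemma In_zero (f : ℝ → ℝ) : In f 0 = 0 := by rw [In, intervalIntegral.integral_same]

lemma In_deriv {f : ℝ → ℝ} (hf : ContinuousOn f (Icc 0 1)) {p : ℝ} (hp : p ∈ Icc (0:ℝ) 1) :
    HasDerivWithinAt (In f) (f p) (Icc 0 1) p := by
  have hc := cc hf
  have := intervalIntegral.integral_hasDerivAt_right (hc.intervalIntegrable 0 p)
    (hc.stronglyMeasurableAtFilter _ _) hc.continuousAt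
  rw [clamp_eq hp] at this
  exact this.hasDerivWithinAt

/-- two functions with the same derivative -/
lemma eq_of_derivs {f g f' : ℝ → ℝ} (hf : ∀ p ∈ Icc (0:ℝ) 1, HasDerivWithinAt f (f' p) (Icc 0 1) p)
    (hg : ∀ p ∈ Icc (0:ℝ) 1, HasDerivWithinAt g (f' p) (Icc 0 1) p) {p : ℝ}
    (hp : p ∈ Icc (0:ℝ) 1) : f p - f 0 = g p - g 0 := by
  have hd : ∀ q ∈ Icc (0:ℝ) 1, HasDerivWithinAt (fun q => f q - g q) (f' q - f' q) (Icc 0 1) q :=
    fun q hq => (hf q hq).sub (hg q hq)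
  have := (convex_Icc (0:ℝ) 1).norm_image_sub_le_of_norm_hasDerivWithin_le (C := 0) hd
    (fun q _ => by rw [sub_self, norm_zero]) (⟨le_refl _, zero_le_one⟩ : (0:ℝ) ∈ Icc (0:ℝ) 1) hp
  rw [zero_mul] at this
  have h := norm_le_zero_iff.1 this
  linarith

lemma In_eq {f f' : ℝ → ℝ} (hf : ∀ p ∈ Icc (0:ℝ) 1, HasDerivWithinAt f (f' p) (Icc 0 1) p)
    (hc : ContinuousOn f' (Icc 0 1)) {p : ℝ} (hp : p ∈ Icc (0:ℝ) 1) : f p = f 0 + In f' p := by
  have := eq_of_derivs hf (fun p hp => In_deriv hc hp) hp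
  rw [In_zero] at this
  linarith

lemma In_sub_le {f g : ℝ → ℝ} (hf : ContinuousOn f (Icc 0 1)) (hg : ContinuousOn g (Icc 0 1))
    {ε : ℝ} (h : ∀ q ∈ Icc (0:ℝ) 1, |f q - g q| ≤ ε) {p : ℝ} (hp : p ∈ Icc (0:ℝ) 1) :
    |In f p - In g p| ≤ ε := by
  have hε : 0 ≤ ε := (abs_nonneg _).trans (h 0 ⟨le_refl _, zero_le_one⟩)
  rw [In, In, ← intervalIntegral.integral_sub ((cc hf).intervalIntegrable _ _)
    ((cc hg).intervalIntegrable _ _)]
  have h2 := intervalIntegral.norm_integral_le_of_norm_le_const (a := 0) (b := p) (C := ε)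
    (f := fun q => f (clamp q) - g (clamp q)) (fun q _ => h _ (clamp_mem q))
  rw [Real.norm_eq_abs, sub_zero, abs_of_nonneg hp.1] at h2
  refine h2.trans ?_
  nlinarith [hp.2]

lemma In_lip {f : ℝ → ℝ} (hf : ContinuousOn f (Icc 0 1)) {C : ℝ}
    (h : ∀ q ∈ Icc (0:ℝ) 1, |f q| ≤ C) (p q : ℝ) : |In f p - In f q| ≤ C * |p - q| := by
  have hc := cc hf
  rw [In, In, intervalIntegral.integral_interval_sub_left (hc.intervalIntegrable _ _)
    (hc.intervalIntegrable _ _)]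
  have h2 := intervalIntegral.norm_integral_le_of_norm_le_const (a := q) (b := p) (C := C)
    (f := fun q => f (clamp q)) (fun q _ => h _ (clamp_mem q))
  rwa [Real.norm_eq_abs] at h2

/-- bounded sequences converge along ultrafilters -/
lemma real_lim (𝒰 : Ultrafilter ℕ) {a : ℕ → ℝ} {m M : ℝ} (h : ∀ n, a n ∈ Icc m M) :
    ∃ l ∈ Icc m M, Tendsto a 𝒰 (𝓝 l) := by
  have h1 : ((𝒰.map a : Ultrafilter ℝ) : Filter ℝ) ≤ 𝓟 (Icc m M) := by
    rw [le_principal_iff]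
    exact Filter.mem_map.2 (Filter.univ_mem' (fun n => h n))
  obtain ⟨l, hl, h2⟩ := isCompact_Icc.ultrafilter_le_nhds (𝒰.map a) h1
  exact ⟨l, hl, h2⟩

/-- bounded equi-Lipschitz functions converge uniformly along ultrafilters -/
lemma unif_lim (𝒰 : Ultrafilter ℕ) {f : ℕ → ℝ → ℝ} {C Λ : ℝ} (hΛ : 0 ≤ Λ)
    (hb : ∀ n, ∀ p ∈ Icc (0:ℝ) 1, |f n p| ≤ C)
    (hl : ∀ n, ∀ p ∈ Icc (0:ℝ) 1, ∀ q ∈ Icc (0:ℝ) 1, |f n p - f n q| ≤ Λ * |p - q|) :
    ∃ F : ℝ → ℝ, ContinuousOn F (Icc 0 1) ∧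
      ∀ ε > 0, ∀ᶠ n in (𝒰 : Filter ℕ), ∀ p ∈ Icc (0:ℝ) 1, |f n p - F p| < ε := by
  have hex : ∀ p : ℝ, ∃ l, p ∈ Icc (0:ℝ) 1 → Tendsto (fun n => f n p) 𝒰 (𝓝 l) := by
    intro p
    by_cases hp : p ∈ Icc (0:ℝ) 1
    · obtain ⟨l, -, hl⟩ := real_lim 𝒰 (a := fun n => f n p) (m := -C) (M := C)
        (fun n => abs_le.1 (hb n p hp))
      exact ⟨l, fun _ => hl⟩
    · exact ⟨0, fun h => absurd h hp⟩
  choose F hF using hex
  have hFl : ∀ p ∈ Icc (0:ℝ) 1, ∀ q ∈ Icc (0:ℝ) 1, |F p - F q| ≤ Λ * |p - q| := by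
    intro p hp q hq
    have h1 := ((hF p hp).sub (hF q hq)).abs
    exact le_of_tendsto h1 (Eventually.of_forall (fun n => hl n p hp q hq))
  refine ⟨F, ?_, fun ε hε => ?_⟩
  · rw [Metric.continuousOn_iff]
    intro p hp ε hε
    refine ⟨ε / (Λ + 1), by positivity, fun q hq hd => ?_⟩
    rw [Real.dist_eq] at hd ⊢
    refine (hFl q hq p hp).trans_lt ?_
    rw [lt_div_iff₀ (by positivity)] at hd
    nlinarith [abs_nonneg (q - p)]
  · obtain ⟨N, hN⟩ := exists_nat_gt (3 * (Λ + 1) / ε)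
    have hN0 : 0 < (N : ℝ) := lt_trans (by positivity) hN
    have hgrid : ∀ᶠ n in (𝒰 : Filter ℕ), ∀ j ∈ Finset.range (N + 1),
        |f n ((j : ℝ) / N) - F ((j : ℝ) / N)| < ε / 3 := by
      rw [Filter.eventually_all_finset]
      intro j hj
      have hjN : (j : ℝ) ≤ N := by
        have := Finset.mem_range.1 hj
        exact_mod_cast Nat.lt_succ_iff.1 this
      have hjI : (j : ℝ) / N ∈ Icc (0:ℝ) 1 := ⟨by positivity, by rw [div_le_one hN0]; exact hjN⟩
      have := (Metric.tendsto_nhds.1 (hF _ hjI)) (ε / 3) (by positivity)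
      filter_upwards [this] with n hn
      rwa [Real.dist_eq] at hn
    filter_upwards [hgrid] with n hn p hp
    set j := ⌊p * N⌋₊ with hj
    have hpN : 0 ≤ p * N := mul_nonneg hp.1 hN0.le
    have j1 : (j : ℝ) ≤ p * N := Nat.floor_le hpN
    have j2 : p * N < j + 1 := Nat.lt_floor_add_one _
    have hjN : (j : ℝ) ≤ N := j1.trans (by nlinarith [hp.2])
    have hjr : j ∈ Finset.range (N + 1) := by
      rw [Finset.mem_range, Nat.lt_succ_iff]; exact_mod_cast hjN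
    have hjI : (j : ℝ) / N ∈ Icc (0:ℝ) 1 := ⟨by positivity, by rw [div_le_one hN0]; exact hjN⟩
    have hd : |p - (j : ℝ) / N| ≤ 1 / N := by
      rw [abs_le]
      have e : p - (j : ℝ) / N = (p * N - j) / N := by field_simp
      rw [e]
      constructor
      · have : (0:ℝ) ≤ (p * N - j) / N := div_nonneg (by linarith) hN0.le
        have : (0:ℝ) < 1 / N := by positivity
        linarith
      · exact div_le_div_of_nonneg_right (by linarith) hN0.le
    have hΛN : Λ * (1 / N) < ε / 3 := by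
      rw [mul_one_div, div_lt_iff₀ hN0]
      rw [div_lt_iff₀ hε] at hN
      nlinarith
    have a1 := hl n p hp _ hjI
    have a2 := hFl _ hjI p hp
    have a3 := hn j hjr
    have a4 : Λ * |p - (j : ℝ) / N| ≤ Λ * (1 / N) := mul_le_mul_of_nonneg_left hd hΛ
    rw [abs_sub_comm ((j : ℝ) / N) p] at a2
    have e : f n p - F p = (f n p - f n ((j : ℝ) / N)) + (f n ((j : ℝ) / N) - F ((j : ℝ) / N)) +
      (F ((j : ℝ) / N) - F p) := by ring
    rw [e]
    have b1 := abs_add_le ((f n p - f n ((j : ℝ) / N)) + (f n ((j : ℝ) / N) - F ((j : ℝ) / N)))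
      (F ((j : ℝ) / N) - F p)
    have b2 := abs_add_le (f n p - f n ((j : ℝ) / N)) (f n ((j : ℝ) / N) - F ((j : ℝ) / N))
    linarith

/-- the normal component -/
noncomputable def nn (x y θ : ℝ → ℝ) (q : ℝ) : ℝ := -(x q * Real.sin (θ q)) + y q * Real.cos (θ q)

/-- uniform convergence along a filter -/
def UT (l : Filter ℕ) (f : ℕ → ℝ → ℝ) (F : ℝ → ℝ) : Prop :=
  ∀ ε > 0, ∀ᶠ n in l, ∀ p ∈ Icc (0:ℝ) 1, |f n p - F p| < ε

lemma UT.at {l : Filter ℕ} {f : ℕ → ℝ → ℝ} {F : ℝ → ℝ} (h : UT l f F) {p : ℝ}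
    (hp : p ∈ Icc (0:ℝ) 1) : Tendsto (fun n => f n p) l (𝓝 (F p)) := by
  rw [Metric.tendsto_nhds]
  intro ε hε
  filter_upwards [h ε hε] with n hn
  rw [Real.dist_eq]; exact hn p hp

lemma sc_lip (x y : ℝ) : |Real.sin x - Real.sin y| ≤ |x - y| ∧ |Real.cos x - Real.cos y| ≤ |x - y| := by
  have h1 := Real.lipschitzWith_sin.dist_le_mul x y
  have h2 := Real.lipschitzWith_cos.dist_le_mul x y
  simp only [NNReal.coe_one, one_mul, Real.dist_eq] at h1 h2
  exact ⟨h1, h2⟩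

section
variable {𝒰 : Ultrafilter ℕ} {lam : ℕ → ℝ} {x y θ : ℕ → ℝ → ℝ} {C θ0 : ℝ} {e : ℕ → ℝ}

/-- The limit of approximate shrinkers is a shrinker. -/
theorem abs_lim (hC : 0 ≤ C) (hlam : ∀ n, lam n ∈ Icc 0 C)
    (hcθ : ∀ n, ContinuousOn (θ n) (Icc 0 1))
    (hx : ∀ n, ∀ p ∈ Icc (0:ℝ) 1, HasDerivWithinAt (x n) (lam n * Real.cos (θ n p)) (Icc 0 1) p)
    (hy : ∀ n, ∀ p ∈ Icc (0:ℝ) 1, HasDerivWithinAt (y n) (lam n * Real.sin (θ n p)) (Icc 0 1) p)
    (hxb : ∀ n, ∀ p ∈ Icc (0:ℝ) 1, |x n p| ≤ C) (hyb : ∀ n, ∀ p ∈ Icc (0:ℝ) 1, |y n p| ≤ C)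
    (he : Tendsto e 𝒰 (𝓝 0)) (hθ0 : Tendsto (fun n => θ n 0) 𝒰 (𝓝 θ0))
    (hθ : ∀ n, ∀ p ∈ Icc (0:ℝ) 1,
      |θ n p - θ n 0 + lam n * In (nn (x n) (y n) (θ n)) p| ≤ e n) :
    ∃ (l : ℝ) (X Y Θ : ℝ → ℝ), l ∈ Icc 0 C ∧ Tendsto lam 𝒰 (𝓝 l) ∧ UT 𝒰 x X ∧ UT 𝒰 y Y ∧ UT 𝒰 θ Θ ∧
      (∀ p ∈ Icc (0:ℝ) 1, HasDerivWithinAt X (l * Real.cos (Θ p)) (Icc 0 1) p) ∧
      (∀ p ∈ Icc (0:ℝ) 1, HasDerivWithinAt Y (l * Real.sin (Θ p)) (Icc 0 1) p) ∧
      (∀ p ∈ Icc (0:ℝ) 1, HasDerivWithinAt Θ (-(l * nn X Y Θ p)) (Icc 0 1) p) := by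
  have z0 : (0:ℝ) ∈ Icc (0:ℝ) 1 := ⟨le_refl _, zero_le_one⟩
  obtain ⟨l, hl, hll⟩ := real_lim 𝒰 hlam
  have hcc : ∀ n, ContinuousOn (fun p => lam n * Real.cos (θ n p)) (Icc 0 1) := fun n =>
    continuousOn_const.mul (Real.continuous_cos.comp_continuousOn (hcθ n))
  have hcs : ∀ n, ContinuousOn (fun p => lam n * Real.sin (θ n p)) (Icc 0 1) := fun n =>
    continuousOn_const.mul (Real.continuous_sin.comp_continuousOn (hcθ n))
  have hcx : ∀ n, ContinuousOn (x n) (Icc 0 1) := fun n p hp => (hx n p hp).continuousWithinAt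
  have hcy : ∀ n, ContinuousOn (y n) (Icc 0 1) := fun n p hp => (hy n p hp).continuousWithinAt
  have hcn : ∀ n, ContinuousOn (nn (x n) (y n) (θ n)) (Icc 0 1) := fun n =>
    (((hcx n).mul (Real.continuous_sin.comp_continuousOn (hcθ n))).neg).add
      ((hcy n).mul (Real.continuous_cos.comp_continuousOn (hcθ n)))
  have hnb : ∀ n, ∀ q ∈ Icc (0:ℝ) 1, |nn (x n) (y n) (θ n) q| ≤ 2 * C := by
    intro n q hq
    have h1 := hxb n q hq
    have h2 := hyb n q hq
    have h3 := Real.abs_sin_le_one (θ n q)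
    have h4 := Real.abs_cos_le_one (θ n q)
    rw [nn]
    refine (abs_add_le _ _).trans ?_
    rw [abs_neg, abs_mul, abs_mul]
    have k1 : |x n q| * |Real.sin (θ n q)| ≤ C * 1 := mul_le_mul h1 h3 (abs_nonneg _) hC
    have k2 : |y n q| * |Real.cos (θ n q)| ≤ C * 1 := mul_le_mul h2 h4 (abs_nonneg _) hC
    linarith
  -- Lipschitz bounds
  have lipx : ∀ n, ∀ p ∈ Icc (0:ℝ) 1, ∀ q ∈ Icc (0:ℝ) 1, |x n p - x n q| ≤ C * |p - q| := by
    intro n p hp q hq
    rw [In_eq (hx n) (hcc n) hp, In_eq (hx n) (hcc n) hq]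
    have := In_lip (hcc n) (C := C) (fun q _ => by
      rw [abs_mul, abs_of_nonneg (hlam n).1]
      have := Real.abs_cos_le_one (θ n q)
      have := (hlam n).1
      have := (hlam n).2
      nlinarith [abs_nonneg (Real.cos (θ n q))]) p q
    have e : x n 0 + In (fun p => lam n * Real.cos (θ n p)) p -
      (x n 0 + In (fun p => lam n * Real.cos (θ n p)) q) =
      In (fun p => lam n * Real.cos (θ n p)) p - In (fun p => lam n * Real.cos (θ n p)) q := by ring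
    rwa [e]
  have lipy : ∀ n, ∀ p ∈ Icc (0:ℝ) 1, ∀ q ∈ Icc (0:ℝ) 1, |y n p - y n q| ≤ C * |p - q| := by
    intro n p hp q hq
    rw [In_eq (hy n) (hcs n) hp, In_eq (hy n) (hcs n) hq]
    have := In_lip (hcs n) (C := C) (fun q _ => by
      rw [abs_mul, abs_of_nonneg (hlam n).1]
      have := Real.abs_sin_le_one (θ n q)
      have := (hlam n).1
      have := (hlam n).2
      nlinarith [abs_nonneg (Real.sin (θ n q))]) p q
    have e : y n 0 + In (fun p => lam n * Real.sin (θ n p)) p -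
      (y n 0 + In (fun p => lam n * Real.sin (θ n p)) q) =
      In (fun p => lam n * Real.sin (θ n p)) p - In (fun p => lam n * Real.sin (θ n p)) q := by ring
    rwa [e]
  have lipψ : ∀ n, ∀ p ∈ Icc (0:ℝ) 1, ∀ q ∈ Icc (0:ℝ) 1,
      |lam n * In (nn (x n) (y n) (θ n)) p - lam n * In (nn (x n) (y n) (θ n)) q| ≤
        C * (2 * C) * |p - q| := by
    intro n p hp q hq
    rw [← mul_sub, abs_mul, abs_of_nonneg (hlam n).1, mul_assoc]
    exact mul_le_mul (hlam n).2 (In_lip (hcn n) (hnb n) p q) (abs_nonneg _) hC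
  obtain ⟨X, hXc, hX⟩ := unif_lim 𝒰 hC hxb lipx
  obtain ⟨Y, hYc, hY⟩ := unif_lim 𝒰 hC hyb lipy
  obtain ⟨Ψ, hΨc, hΨ⟩ := unif_lim 𝒰 (f := fun n p => lam n * In (nn (x n) (y n) (θ n)) p)
    (C := C * (2 * C)) (Λ := C * (2 * C)) (by positivity) (fun n p hp => by
      have := lipψ n p hp 0 z0
      rw [In_zero, mul_zero, sub_zero, sub_zero] at this
      refine this.trans ?_
      rw [abs_of_nonneg hp.1]
      have : 0 ≤ C * (2 * C) := by positivity
      nlinarith [hp.2]) lipψ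
  set Θ : ℝ → ℝ := fun p => θ0 - Ψ p with hΘ
  have hΘc : ContinuousOn Θ (Icc 0 1) := continuousOn_const.sub hΨc
  have hθU : UT 𝒰 θ Θ := by
    intro ε hε
    have h1 := (Metric.tendsto_nhds.1 he) (ε / 3) (by positivity)
    have h2 := (Metric.tendsto_nhds.1 hθ0) (ε / 3) (by positivity)
    filter_upwards [h1, h2, hΨ (ε / 3) (by positivity)] with n a1 a2 a3 p hp
    rw [Real.dist_eq, sub_zero] at a1
    rw [Real.dist_eq] at a2
    have a4 := hθ n p hp
    have a5 := a3 p hp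
    have a6 := (le_abs_self (e n)).trans_lt a1
    have e : θ n p - Θ p = (θ n p - θ n 0 + lam n * In (nn (x n) (y n) (θ n)) p) + (θ n 0 - θ0) -
      (lam n * In (nn (x n) (y n) (θ n)) p - Ψ p) := by rw [hΘ]; ring
    rw [e]
    have b1 := abs_sub ((θ n p - θ n 0 + lam n * In (nn (x n) (y n) (θ n)) p) + (θ n 0 - θ0))
      (lam n * In (nn (x n) (y n) (θ n)) p - Ψ p)
    have b2 := abs_add_le (θ n p - θ n 0 + lam n * In (nn (x n) (y n) (θ n)) p) (θ n 0 - θ0)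
    linarith
  -- passing to the limit in integrals
  have In_lim : ∀ {f : ℕ → ℝ → ℝ} {F : ℝ → ℝ}, (∀ n, ContinuousOn (f n) (Icc 0 1)) →
      ContinuousOn F (Icc 0 1) → UT 𝒰 f F → ∀ p ∈ Icc (0:ℝ) 1,
      Tendsto (fun n => In (f n) p) 𝒰 (𝓝 (In F p)) := by
    intro f F hf hF h p hp
    rw [Metric.tendsto_nhds]
    intro ε hε
    filter_upwards [h (ε / 2) (by positivity)] with n hn
    rw [Real.dist_eq]
    exact (In_sub_le (hf n) hF (fun q hq => (hn q hq).le) hp).trans_lt (by linarith)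
  have ucos : UT 𝒰 (fun n p => Real.cos (θ n p)) (fun p => Real.cos (Θ p)) := by
    intro ε hε
    filter_upwards [hθU ε hε] with n hn p hp
    exact ((sc_lip _ _).2).trans_lt (hn p hp)
  have usin : UT 𝒰 (fun n p => Real.sin (θ n p)) (fun p => Real.sin (Θ p)) := by
    intro ε hε
    filter_upwards [hθU ε hε] with n hn p hp
    exact ((sc_lip _ _).1).trans_lt (hn p hp)
  have hXb : ∀ p ∈ Icc (0:ℝ) 1, |X p| ≤ C := fun p hp =>
    le_of_tendsto (UT.at hX hp).abs (Eventually.of_forall (fun n => hxb n p hp))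
  have hYb : ∀ p ∈ Icc (0:ℝ) 1, |Y p| ≤ C := fun p hp =>
    le_of_tendsto (UT.at hY hp).abs (Eventually.of_forall (fun n => hyb n p hp))
  have umul : ∀ {f g : ℕ → ℝ → ℝ} {F G : ℝ → ℝ} {D : ℝ}, 0 ≤ D → UT 𝒰 f F → UT 𝒰 g G →
      (∀ n, ∀ p ∈ Icc (0:ℝ) 1, |f n p| ≤ D) → (∀ p ∈ Icc (0:ℝ) 1, |G p| ≤ 1) →
      UT 𝒰 (fun n p => f n p * g n p) (fun p => F p * G p) := by
    intro f g F G D hD hf hg hfb hGb ε hε
    filter_upwards [hf (ε / 2) (by positivity), hg (ε / (2 * (D + 1))) (by positivity)]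
      with n a1 a2 p hp
    have e : f n p * g n p - F p * G p = f n p * (g n p - G p) + (f n p - F p) * G p := by ring
    rw [e]
    refine (abs_add_le _ _).trans_lt ?_
    rw [abs_mul, abs_mul]
    have b1 : |f n p| * |g n p - G p| ≤ D * (ε / (2 * (D + 1))) :=
      mul_le_mul (hfb n p hp) (a2 p hp).le (abs_nonneg _) hD
    have b2 : |f n p - F p| * |G p| < ε / 2 := by
      have := a1 p hp
      have := hGb p hp
      nlinarith [abs_nonneg (f n p - F p), abs_nonneg (G p)]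
    have b3 : D * (ε / (2 * (D + 1))) ≤ ε / 2 := by
      rw [mul_div_assoc', div_le_div_iff₀ (by positivity) (by norm_num)]
      nlinarith
    linarith
  have unn : UT 𝒰 (fun n => nn (x n) (y n) (θ n)) (nn X Y Θ) := by
    have h1 := umul hC hX usin hxb (fun p _ => Real.abs_sin_le_one _)
    have h2 := umul hC hY ucos hyb (fun p _ => Real.abs_cos_le_one _)
    intro ε hε
    filter_upwards [h1 (ε / 2) (by positivity), h2 (ε / 2) (by positivity)] with n a1 a2 p hp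
    have e : nn (x n) (y n) (θ n) p - nn X Y Θ p = (y n p * Real.cos (θ n p) - Y p * Real.cos (Θ p)) -
      (x n p * Real.sin (θ n p) - X p * Real.sin (Θ p)) := by rw [nn, nn]; ring
    rw [e]
    refine (abs_sub _ _).trans_lt ?_
    have b1 := a1 p hp
    have b2 := a2 p hp
    linarith
  have hnc : ContinuousOn (nn X Y Θ) (Icc 0 1) :=
    ((hXc.mul (Real.continuous_sin.comp_continuousOn hΘc)).neg).add
      (hYc.mul (Real.continuous_cos.comp_continuousOn hΘc))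
  have hcosc : ContinuousOn (fun p => Real.cos (Θ p)) (Icc 0 1) :=
    Real.continuous_cos.comp_continuousOn hΘc
  have hsinc : ContinuousOn (fun p => Real.sin (Θ p)) (Icc 0 1) :=
    Real.continuous_sin.comp_continuousOn hΘc
  have InX : ∀ p ∈ Icc (0:ℝ) 1, X p = X 0 + l * In (fun p => Real.cos (Θ p)) p := by
    intro p hp
    have h1 : Tendsto (fun n => x n p) 𝒰 (𝓝 (X 0 + l * In (fun p => Real.cos (Θ p)) p)) := by
      have h2 := (UT.at hX z0).add (hll.mul (In_lim (f := fun n p => Real.cos (θ n p))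
        (fun n => Real.continuous_cos.comp_continuousOn (hcθ n)) hcosc ucos p hp))
      refine h2.congr (fun n => ?_)
      have h3 := In_eq (f := x n) (f' := fun p => lam n * Real.cos (θ n p)) (hx n) (hcc n) hp
      rw [h3]
      congr 1
      rw [In, In, ← intervalIntegral.integral_const_mul]
    exact tendsto_nhds_unique (UT.at hX hp) h1
  have InY : ∀ p ∈ Icc (0:ℝ) 1, Y p = Y 0 + l * In (fun p => Real.sin (Θ p)) p := by
    intro p hp
    have h1 : Tendsto (fun n => y n p) 𝒰 (𝓝 (Y 0 + l * In (fun p => Real.sin (Θ p)) p)) := by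
      have h2 := (UT.at hY z0).add (hll.mul (In_lim (f := fun n p => Real.sin (θ n p))
        (fun n => Real.continuous_sin.comp_continuousOn (hcθ n)) hsinc usin p hp))
      refine h2.congr (fun n => ?_)
      have h3 := In_eq (f := y n) (f' := fun p => lam n * Real.sin (θ n p)) (hy n) (hcs n) hp
      rw [h3]
      congr 1
      rw [In, In, ← intervalIntegral.integral_const_mul]
    exact tendsto_nhds_unique (UT.at hY hp) h1
  have InΨ : ∀ p ∈ Icc (0:ℝ) 1, Ψ p = l * In (nn X Y Θ) p := by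
    intro p hp
    exact tendsto_nhds_unique (UT.at (f := fun n p => lam n * In (nn (x n) (y n) (θ n)) p) hΨ hp)
      (hll.mul (In_lim hcn hnc unn p hp))
  refine ⟨l, X, Y, Θ, hl, hll, hX, hY, hθU, fun p hp => ?_, fun p hp => ?_, fun p hp => ?_⟩
  · have h1 := ((In_deriv hcosc hp).const_mul l).const_add (X 0)
    exact h1.congr InX (InX p hp)
  · have h1 := ((In_deriv hsinc hp).const_mul l).const_add (Y 0)
    exact h1.congr InY (InY p hp)
  · have h1 := ((In_deriv hnc hp).const_mul l).const_sub θ0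
    refine h1.congr (fun q hq => ?_) ?_
    · simp only [hΘ, InΨ q hq]
    · simp only [hΘ, InΨ p hp]

end

end Run7.h661v
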