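import Pool.Agent.Run7.h661.V.Sel
import Pool.Agent.Run7.h661.V.Unl
import Pool.Agent.Run7.h661.Z.Flow
import Pool.Agent.Run7.h661.Y.Concl

/-!
# The rescaled caps are approximate shrinkers
-/

open Set Filter Topology
open scoped Real ContDiff

namespace Run7.h661v

open Run7.h661x Run7.h661z
open Run7.h661y (cang cang0 cang1 cang2 HypE xa ya yM rr rr_pos tendsto_rr rr_sq)

lemma In_mono {f g : ℝ → ℝ} (hf : ContinuousOn f (Icc 0 1)) (hg : ContinuousOn g (Icc 0 1))
    (h : ∀ q ∈ Icc (0:ℝ) 1, f q ≤ g q) {p : ℝ} (hp : p ∈ Icc (0:ℝ) 1) : In f p ≤ In g p :=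
  intervalIntegral.integral_mono_on hp.1 ((cc hf).intervalIntegrable _ _)
    ((cc hg).intervalIntegrable _ _) (fun _ _ => h _ (clamp_mem _))

lemma In_le_one {f : ℝ → ℝ} (hf : ContinuousOn f (Icc 0 1)) (h : ∀ q ∈ Icc (0:ℝ) 1, 0 ≤ f q)
    {p : ℝ} (hp : p ∈ Icc (0:ℝ) 1) : In f p ≤ In f 1 := by
  have hc := cc hf
  have e : In f 1 - In f p = ∫ q in p..1, f (clamp q) := by
    rw [In, In, intervalIntegral.integral_interval_sub_left (hc.intervalIntegrable _ _)
      (hc.intervalIntegrable _ _)]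
  have := intervalIntegral.integral_nonneg hp.2 (f := fun q => f (clamp q))
    (μ := MeasureTheory.volume) (fun _ _ => h _ (clamp_mem _))
  linarith

/-- an elementary form of the Cauchy-Schwarz inequality -/
lemma cs_bound {z ρ : ℝ → ℝ} (hz : ContinuousOn z (Icc 0 1)) (hρ : ContinuousOn ρ (Icc 0 1))
    (hρ0 : ∀ q ∈ Icc (0:ℝ) 1, 0 ≤ ρ q) {η : ℝ} (hη : 0 < η) {p : ℝ} (hp : p ∈ Icc (0:ℝ) 1) :
    |In (fun q => z q * ρ q) p| ≤ 1 / (2 * η) * In (fun q => z q ^ 2 * ρ q) 1 +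
      η / 2 * In ρ 1 := by
  have hc1 : ContinuousOn (fun q => z q * ρ q) (Icc 0 1) := hz.mul hρ
  have hc2 : ContinuousOn (fun q => z q ^ 2 * ρ q) (Icc 0 1) := (hz.pow 2).mul hρ
  have hc3 : ContinuousOn (fun q => 1 / (2 * η) * (z q ^ 2 * ρ q) + η / 2 * ρ q) (Icc 0 1) :=
    (continuousOn_const.mul hc2).add (continuousOn_const.mul hρ)
  have e : ∀ p, In (fun q => 1 / (2 * η) * (z q ^ 2 * ρ q) + η / 2 * ρ q) p =
      1 / (2 * η) * In (fun q => z q ^ 2 * ρ q) p + η / 2 * In ρ p := by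
    intro p
    rw [In, In, In, intervalIntegral.integral_add
      (((cc hc2).const_mul _).intervalIntegrable _ _) (((cc hρ).const_mul _).intervalIntegrable _ _),
      intervalIntegral.integral_const_mul, intervalIntegral.integral_const_mul]
  have am : ∀ x : ℝ, |x| ≤ 1 / (2 * η) * x ^ 2 + η / 2 := by
    intro x
    have h1 : 0 ≤ (|x| - η) ^ 2 := sq_nonneg _
    have h2 : |x| ^ 2 = x ^ 2 := sq_abs x
    have h3 : 1 / (2 * η) * x ^ 2 + η / 2 - |x| = (|x| - η) ^ 2 / (2 * η) := by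
      rw [← h2]; field_simp; ring
    have h4 : 0 ≤ (|x| - η) ^ 2 / (2 * η) := by positivity
    linarith
  have hub : ∀ q ∈ Icc (0:ℝ) 1, |z q| * ρ q ≤ 1 / (2 * η) * (z q ^ 2 * ρ q) + η / 2 * ρ q := by
    intro q hq
    have := mul_le_mul_of_nonneg_right (am (z q)) (hρ0 q hq)
    linarith
  have hnn : ∀ q ∈ Icc (0:ℝ) 1, 0 ≤ 1 / (2 * η) * (z q ^ 2 * ρ q) + η / 2 * ρ q := by
    intro q hq
    have := hρ0 q hq
    positivity
  have h1 := In_le_one hc3 hnn hp
  rw [e 1] at h1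
  have hneg : In (fun q => -(z q * ρ q)) p = -In (fun q => z q * ρ q) p := by
    rw [In, In, intervalIntegral.integral_neg]
  rw [abs_le]
  constructor
  · have h2 := In_mono hc1.neg hc3 (fun q hq => (by
      refine le_trans ?_ (hub q hq)
      have h5 := neg_abs_le (z q)
      have := mul_le_mul_of_nonneg_right h5 (hρ0 q hq)
      show -(z q * ρ q) ≤ _
      linarith : (fun q => -(z q * ρ q)) q ≤ _)) hp
    have h3 : In (-fun q => z q * ρ q) p = -In (fun q => z q * ρ q) p := hneg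
    have h4 : In (fun q => -(z q * ρ q)) p ≤
      In (fun q => 1 / (2 * η) * (z q ^ 2 * ρ q) + η / 2 * ρ q) p := h2
    rw [hneg] at h4
    linarith
  · have h2 := In_mono hc1 hc3 (fun q hq => by
      refine le_trans ?_ (hub q hq)
      exact mul_le_mul_of_nonneg_right (le_abs_self _) (hρ0 q hq)) hp
    linarith

section
variable {g : Fin 3 → ℝ → ℝ → ℂ} {a : AFd} (S : St (1 / 2) a g)
include S

/-- values of the half cap -/
lemma half_bds {t : ℝ} (ht : t ∈ Ioo 0 (1 / 2 : ℝ)) {q : ℝ} (hq : q ∈ Icc (0:ℝ) 1) :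
    |a.X 1 t (a.pp t q)| ≤ xa g t ∧ |a.Y 1 t (a.pp t q)| ≤ 5 * xa g t := by
  have N := NSt S ht
  have hx := (S.junc_eq ht 0).1
  have hq2 : q / 2 ∈ Icc (0:ℝ) 1 := ⟨by linarith [hq.1], by linarith [hq.2]⟩
  obtain ⟨a1, a2, -, -⟩ := N.c_x hq2
  obtain ⟨b1, b2⟩ := N.c_y hq2
  have hX1 : a.X 1 t 1 = 0 := by rw [AFd.X]; ring
  have e1 : (caP a a.cK).x t (q / 2) = a.X 1 t (a.pp t q) := by
    show fo (fun q => a.X 1 t (a.pp t q)) (q / 2) = _
    rw [fo_left _ (by linarith [hq.2]), S.A.pp_one ht, hX1, sub_zero]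
    congr 2; ring
  have e2 : (caP a a.cK).y t (q / 2) = a.Y 1 t (a.pp t q) := by
    show fe (fun q => a.Y 1 t (a.pp t q)) (q / 2) = _
    rw [fe_left _ (by linarith [hq.2])]
    congr 2; ring
  rw [e1, hx] at a1 a2
  rw [e2, hx] at b2
  rw [e2] at b1
  have hya := N.ya0
  refine ⟨abs_le.2 ⟨a1, a2⟩, ?_⟩
  rw [abs_of_nonneg (hya.le.trans b1)]
  exact b2

/-- the defect from being a shrinker -/
lemma defect {t M s : ℝ} (ht : t ∈ Ico (1 / 4 : ℝ) (1 / 2)) (hM : xa g t < M * rr (1 / 2) t)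
    (hs : 0 < s) (hG : rr (1 / 2) t ^ 2 * Gt a t ≤ s ^ 2 / Real.exp (13 * M ^ 2)) {p : ℝ}
    (hp : p ∈ Icc (0:ℝ) 1) :
    |In (fun q => (a.k 1 t q + (edE a 1).n t q / (1 - 2 * t)) * a.ro 1 t q) p| ≤
      s * (1 / 2 + M) := by
  have H := hE S
  have htI := H.mem ht
  have A := S.A
  have hr := rr_pos ht.2
  have hu : rr (1 / 2) t ^ 2 = 1 - 2 * t := by rw [rr_sq ht.2.le]; ring
  have hz : ContinuousOn (fun q => a.k 1 t q + (edE a 1).n t q / (1 - 2 * t)) (Icc 0 1) := by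
    have hs : ∀ {F : ℝ → ℝ → ℝ}, CS (1 / 2) F → ContinuousOn (F t) (Icc 0 1) := by
      intro F hF
      exact ContinuousOn.comp (g := fun q : ℝ × ℝ => F q.1 q.2) (f := fun p => (t, p)) hF
        (by fun_prop) (fun p hp => ⟨htI, hp⟩)
    have E := eg_ed A 1
    exact (hs E.ck).add ((hs E.cn).div_const _)
  have hρ : ContinuousOn (a.ro 1 t) (Icc 0 1) := fun q hq => (A.pro 1 t q).continuousAt.continuousWithinAt
  have hcs := cs_bound hz hρ (fun q hq => (A.pos 1 t htI q hq).le)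
    (div_pos hs hr) hp
  refine hcs.trans ?_
  have hL : In (a.ro 1 t) 1 = a.L 1 t := by
    have hd : ∀ p ∈ Icc (0:ℝ) 1, HasDerivWithinAt
        (fun p => a.L 0 t * p + (a.L 1 t - a.L 0 t) * p ^ 2) (a.ro 1 t p) (Icc 0 1) p := by
      intro p _
      have h1 := ((hasDerivAt_id' p).const_mul (a.L 0 t)).add
        (((hasDerivAt_id' p).pow 2).const_mul (a.L 1 t - a.L 0 t))
      refine h1.hasDerivWithinAt.congr_deriv ?_
      rw [AFd.ro]
      simp only [Nat.cast_ofNat, Nat.add_one_sub_one, pow_one]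
      ring
    have := In_eq hd hρ (⟨zero_le_one, le_refl _⟩ : (1:ℝ) ∈ Icc (0:ℝ) 1)
    linarith
  have hLb : a.L 1 t ≤ 2 * (M * rr (1 / 2) t) := by
    have := (S.len htI).2.1.1
    linarith
  have hG1 := (G1_le S htI).1
  -- lower bound of the weight
  have hw : ∀ q ∈ Icc (0:ℝ) 1, (rr (1 / 2) t * Real.exp (13 * M ^ 2))⁻¹ ≤ (edE a 1).F t q := by
    intro q hq
    -- q = pp of something
    have hX : |a.X 1 t q| ≤ xa g t ∧ |a.Y 1 t q| ≤ 5 * xa g t := by
      obtain ⟨l0, l1⟩ := A.L0pos htI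
      have hL1 : 0 < a.L 1 t := by linarith
      set q' := (a.L 0 t * q + (a.L 1 t - a.L 0 t) * q ^ 2) / a.L 1 t with hq'
      have hnum : a.L 1 t - (a.L 0 t * q + (a.L 1 t - a.L 0 t) * q ^ 2) =
          (1 - q) * (a.L 1 t + q * (a.L 1 t - a.L 0 t)) := by ring
      have hpos1 : 0 ≤ a.L 0 t * q + (a.L 1 t - a.L 0 t) * q ^ 2 := by
        have e : a.L 0 t * q + (a.L 1 t - a.L 0 t) * q ^ 2 =
          q * ((1 - q) * a.L 0 t + q * a.L 1 t) := by ring
        rw [e]
        have h1 : 0 ≤ 1 - q := by linarith [hq.2]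
        have h2 := hq.1
        positivity
      have hpos2 : 0 ≤ a.L 1 t + q * (a.L 1 t - a.L 0 t) := by
        have e : a.L 1 t + q * (a.L 1 t - a.L 0 t) = (1 - q) * a.L 1 t + q * (2 * a.L 1 t - a.L 0 t) := by
          ring
        rw [e]
        have h1 : 0 ≤ 1 - q := by linarith [hq.2]
        have h2 := hq.1
        positivity
      have hq'I : q' ∈ Icc (0:ℝ) 1 := by
        refine ⟨div_nonneg hpos1 hL1.le, ?_⟩
        rw [hq', div_le_one hL1]
        have := mul_nonneg (sub_nonneg.2 hq.2) hpos2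
        linarith
      have hpp : a.pp t q' = q := by
        -- both solve the same strictly monotone equation
        have e1 := Pf_eq l0 l1 hq'I
        have e2 : a.L 1 t * q' = a.L 0 t * q + (a.L 1 t - a.L 0 t) * q ^ 2 := by
          rw [hq']; field_simp
        rw [e2] at e1
        have hPI := A.pp_mem htI hq'I
        have e3 : (a.pp t q' - q) * (a.L 0 t + (a.L 1 t - a.L 0 t) * (a.pp t q' + q)) = 0 := by
          have : a.pp t q' = Pf (a.L 0 t) (a.L 1 t) q' := rfl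
          rw [this]
          linear_combination e1
        rcases mul_eq_zero.1 e3 with h | h
        · linarith
        · exfalso
          have h1 : 0 ≤ a.pp t q' + q := add_nonneg hPI.1 hq.1
          have h2 : a.pp t q' + q ≤ 2 := by linarith [hPI.2, hq.2]
          have e : a.L 0 t + (a.L 1 t - a.L 0 t) * (a.pp t q' + q) =
            (1 - (a.pp t q' + q) / 2) * a.L 0 t + (a.pp t q' + q) / 2 * (2 * a.L 1 t - a.L 0 t) := by
            ring
          rw [e] at h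
          rcases eq_or_lt_of_le h1 with h3 | h3
          · rw [← h3] at h
            simp at h
            linarith
          · have : 0 < (a.pp t q' + q) / 2 * (2 * a.L 1 t - a.L 0 t) := by positivity
            have : 0 ≤ (1 - (a.pp t q' + q) / 2) * a.L 0 t := mul_nonneg (by linarith) l0.le
            linarith
      have := half_bds S htI hq'I
      rwa [hpp] at this
    have hxa : 0 ≤ xa g t := H.qf.xa_nonneg htI (H.secAt ht)
    have h2 : a.X 1 t q ^ 2 + a.Y 1 t q ^ 2 ≤ 26 * (M * rr (1 / 2) t) ^ 2 := by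
      have k1 : a.X 1 t q ^ 2 ≤ (M * rr (1 / 2) t) ^ 2 := by
        rw [← sq_abs]
        exact pow_le_pow_left₀ (abs_nonneg _) (hX.1.trans hM.le) 2
      have k2 : a.Y 1 t q ^ 2 ≤ (5 * (M * rr (1 / 2) t)) ^ 2 := by
        rw [← sq_abs]
        exact pow_le_pow_left₀ (abs_nonneg _) (hX.2.trans (by linarith)) 2
      linarith
    have hsq : √(1 - 2 * t) = rr (1 / 2) t := by
      rw [← hu, Real.sqrt_sq hr.le]
    show _ ≤ Fg t (a.X 1 t q) (a.Y 1 t q)
    rw [Fg, hsq, mul_inv, ← Real.exp_neg]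
    apply mul_le_mul_of_nonneg_left _ (by positivity)
    apply Real.exp_le_exp.2
    rw [← hu, neg_div, neg_le_neg_iff, div_le_iff₀ (by positivity)]
    linarith
  have hD : In (fun q => (a.k 1 t q + (edE a 1).n t q / (1 - 2 * t)) ^ 2 * a.ro 1 t q) 1 ≤
      rr (1 / 2) t * Real.exp (13 * M ^ 2) * (edE a 1).G t := by
    have hc2 : ContinuousOn (fun q => (a.k 1 t q + (edE a 1).n t q / (1 - 2 * t)) ^ 2 *
      a.ro 1 t q) (Icc 0 1) := (hz.pow 2).mul hρ
    have hcF : ContinuousOn ((edE a 1).F t) (Icc 0 1) :=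
      ContinuousOn.comp (g := fun q : ℝ × ℝ => (edE a 1).F q.1 q.2) (f := fun p => (t, p))
        ((eg_ed A 1).cF (le_refl _)) (by fun_prop) (fun p hp => ⟨htI, hp⟩)
    have e : (edE a 1).G t = In (fun q => (edE a 1).F t q *
      ((a.k 1 t q + (edE a 1).n t q / (1 - 2 * t)) ^ 2 * a.ro 1 t q)) 1 := by
      rw [Ee.G, In, PI]
      congr 1
      funext q
      show _ * _ * _ = _
      rw [mul_assoc]
      rfl
    rw [e]
    have hκ : 0 < rr (1 / 2) t * Real.exp (13 * M ^ 2) := by positivity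
    rw [← inv_mul_le_iff₀ hκ]
    have e2 : (rr (1 / 2) t * Real.exp (13 * M ^ 2))⁻¹ *
      In (fun q => (a.k 1 t q + (edE a 1).n t q / (1 - 2 * t)) ^ 2 * a.ro 1 t q) 1 =
      In (fun q => (rr (1 / 2) t * Real.exp (13 * M ^ 2))⁻¹ *
        ((a.k 1 t q + (edE a 1).n t q / (1 - 2 * t)) ^ 2 * a.ro 1 t q)) 1 := by
      rw [In, In, intervalIntegral.integral_const_mul]
    rw [e2]
    refine In_mono (continuousOn_const.mul hc2) (hcF.mul hc2) (fun q hq => ?_)
      ⟨zero_le_one, le_refl _⟩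
    exact mul_le_mul_of_nonneg_right (hw q hq)
      (mul_nonneg (sq_nonneg _) (A.pos 1 t htI q hq).le)
  have hGnn := (G1_le S htI).2
  have hrD : rr (1 / 2) t * In (fun q => (a.k 1 t q + (edE a 1).n t q / (1 - 2 * t)) ^ 2 *
      a.ro 1 t q) 1 ≤ s ^ 2 := by
    have h1 := mul_le_mul_of_nonneg_left hD hr.le
    have h2 : rr (1 / 2) t * (rr (1 / 2) t * Real.exp (13 * M ^ 2) * (edE a 1).G t) ≤
      Real.exp (13 * M ^ 2) * (rr (1 / 2) t ^ 2 * Gt a t) := by
      have : Real.exp (13 * M ^ 2) * (rr (1 / 2) t ^ 2 * Gt a t) -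
        rr (1 / 2) t * (rr (1 / 2) t * Real.exp (13 * M ^ 2) * (edE a 1).G t) =
        Real.exp (13 * M ^ 2) * rr (1 / 2) t ^ 2 * (Gt a t - (edE a 1).G t) := by ring
      have h3 : 0 ≤ Real.exp (13 * M ^ 2) * rr (1 / 2) t ^ 2 * (Gt a t - (edE a 1).G t) :=
        mul_nonneg (by positivity) (by linarith)
      linarith
    have h3 : Real.exp (13 * M ^ 2) * (rr (1 / 2) t ^ 2 * Gt a t) ≤ s ^ 2 := by
      rw [le_div_iff₀ (Real.exp_pos _)] at hG
      linarith
    linarith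
  rw [hL]
  set D := In (fun q => (a.k 1 t q + (edE a 1).n t q / (1 - 2 * t)) ^ 2 * a.ro 1 t q) 1
  set r := rr (1 / 2) t with hrd
  have k1 : 1 / (2 * (s / r)) * D = 1 / (2 * s) * (r * D) := by field_simp
  have k2 : s / r / 2 * a.L 1 t ≤ s / r / 2 * (2 * (M * r)) :=
    mul_le_mul_of_nonneg_left hLb (by positivity)
  have k3 : s / r / 2 * (2 * (M * r)) = s * M := by field_simp
  have k4 : 1 / (2 * s) * (r * D) ≤ 1 / (2 * s) * s ^ 2 :=
    mul_le_mul_of_nonneg_left hrD (by positivity)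
  have k5 : 1 / (2 * s) * s ^ 2 = s / 2 := by field_simp
  rw [k1]
  linarith

end

end Run7.h661v
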