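import Pool.Agent.Run7.h661.V.Fin2

/-!
# Convergence of the rescaled arms
-/

open Set Filter Topology
open scoped Real ContDiff

namespace Run7.h661v

open Run7.h661x Run7.h661z
open Run7.h661y (cang cang0 cang1 cang2 HypE xa ya yM rr rr_pos tendsto_rr rr_sq)

/-- the arclength reparametrisation of the initial arc -/
noncomputable def rep (a : AFd) (ℓ t p : ℝ) : ℝ :=
  Pf (a.L 0 t) (a.L 2 t) (p * (ℓ * rr (1 / 2) t / a.L 2 t))

section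
variable {g : Fin 3 → ℝ → ℝ → ℂ} {a : AFd} (S : St (1 / 2) a g)
include S

lemma L2pos {t : ℝ} (ht : t ∈ Ioo 0 (1 / 2 : ℝ)) :
    0 < a.L 0 t ∧ 0 < 2 * a.L 2 t - a.L 0 t ∧ 0 < a.L 2 t ∧ 999 ≤ a.L 2 t := by
  have h0 := S.A.pos 2 t ht 0 ⟨le_refl _, zero_le_one⟩
  have h1 := S.A.pos 2 t ht 1 ⟨zero_le_one, le_refl _⟩
  simp only [AFd.ro] at h0 h1
  have h2 := (S.len ht).2.2.2
  have h3 := S.xa_up ht
  have h4 : RR = 1001 := rfl
  rw [h4] at h2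
  refine ⟨by linarith, by linarith, by linarith, by linarith⟩

section
variable {ℓ t : ℝ} (ht : t ∈ Ioo 0 (1 / 2 : ℝ)) (hℓ : 0 < ℓ) (hs : ℓ * rr (1 / 2) t ≤ a.L 2 t)
include ht hℓ hs

lemma rep_arg {p : ℝ} (hp : p ∈ Icc (0:ℝ) 1) :
    p * (ℓ * rr (1 / 2) t / a.L 2 t) ∈ Icc (0:ℝ) 1 := by
  obtain ⟨-, -, h2, -⟩ := L2pos S ht
  have hr := rr_pos ht.2
  have h3 : 0 ≤ ℓ * rr (1 / 2) t / a.L 2 t := by positivity
  have h4 : ℓ * rr (1 / 2) t / a.L 2 t ≤ 1 := by rw [div_le_one h2]; exact hs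
  exact ⟨mul_nonneg hp.1 h3, by nlinarith [hp.1, hp.2]⟩

lemma rep_mem {p : ℝ} (hp : p ∈ Icc (0:ℝ) 1) : rep a ℓ t p ∈ Icc (0:ℝ) 1 := by
  obtain ⟨h0, h1, -, -⟩ := L2pos S ht
  exact Pf_mem h0 h1 (rep_arg S ht hℓ hs hp)

lemma rep_deriv {p : ℝ} (hp : p ∈ Icc (0:ℝ) 1) :
    HasDerivAt (rep a ℓ t) (ℓ * rr (1 / 2) t / a.ro 2 t (rep a ℓ t p)) p := by
  obtain ⟨h0, h1, h2, -⟩ := L2pos S ht
  have hq := rep_arg S ht hℓ hs hp
  have d1 := Pf_deriv h0 h1 hq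
  have d2 : HasDerivAt (fun p : ℝ => p * (ℓ * rr (1 / 2) t / a.L 2 t))
      (1 * (ℓ * rr (1 / 2) t / a.L 2 t)) p := (hasDerivAt_id' p).mul_const _
  have d3 : HasDerivAt (rep a ℓ t) _ p := HasDerivAt.comp p (h₂ := Pf (a.L 0 t) (a.L 2 t)) d1 d2
  refine d3.congr_deriv ?_
  have e : a.ro 2 t (rep a ℓ t p) = Rf (a.L 0 t) (a.L 2 t) (p * (ℓ * rr (1 / 2) t / a.L 2 t)) :=
    Pf_speed h0 h1 hq
  have hR := (Rf_pos h0 h1 hq).ne'
  rw [e]
  field_simp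

lemma rep_pos {p : ℝ} (hp : p ∈ Icc (0:ℝ) 1) :
    0 < ℓ * rr (1 / 2) t / a.ro 2 t (rep a ℓ t p) := by
  have h1 := S.A.pos 2 t ht _ (rep_mem S ht hℓ hs hp)
  have hr := rr_pos ht.2
  positivity

/-- derivative of the reparametrised rescaled arm -/
lemma arm_deriv (σ τ : Bool) {p : ℝ} (hp : p ∈ Icc (0:ℝ) 1) :
    HasDerivWithinAt (fun p => rescale (1 / 2) t 0 ((NN a (.arm σ τ)).c t) (rep a ℓ t p))
      (((ℓ * (sg σ * Real.cos (a.al 2 t (rep a ℓ t p))) : ℝ) : ℂ) +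
        ((ℓ * (sg τ * Real.sin (a.al 2 t (rep a ℓ t p))) : ℝ) : ℂ) * Complex.I) (Icc 0 1) p := by
  have hm := rep_mem S ht hℓ hs hp
  have d1 := resc_deriv S ht (.arm σ τ) hm
  have d2 := (rep_deriv S ht hℓ hs hp).hasDerivWithinAt (s := Icc 0 1)
  have d3 := HasDerivWithinAt.scomp p d1 d2 (fun q hq => rep_mem S ht hℓ hs hq)
  refine HasDerivWithinAt.congr_deriv (f := fun p =>
    rescale (1 / 2) t 0 ((NN a (.arm σ τ)).c t) (rep a ℓ t p)) d3 ?_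
  have h1 := (S.A.pos 2 t ht _ hm).ne'
  have hr := (rr_pos ht.2).ne'
  have hrc : (rr (1 / 2) t : ℂ) ≠ 0 := by exact_mod_cast hr
  have h1c : (a.ro 2 t (rep a ℓ t p) : ℂ) ≠ 0 := by exact_mod_cast h1
  show _ • (((a.ro 2 t (rep a ℓ t p) / rr (1 / 2) t : ℝ) : ℂ) *
    uv (cond σ 0 π + sg σ * sg τ * a.al 2 t (rep a ℓ t p))) = _
  rw [refl_uv, Complex.real_smul]
  push_cast
  field_simp

/-- horizontal position on the reparametrised arm -/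
lemma arm_x {p : ℝ} (hp : p ∈ Icc (0:ℝ) 1) :
    a.X 2 t (rep a ℓ t p) ≤ xa g t + ℓ * rr (1 / 2) t := by
  have hr := rr_pos ht.2
  have z0 : (0:ℝ) ∈ Icc (0:ℝ) 1 := ⟨le_refl _, zero_le_one⟩
  have hd : ∀ q ∈ Icc (0:ℝ) 1, HasDerivWithinAt
      (fun q => ℓ * rr (1 / 2) t * q - a.X 2 t (rep a ℓ t q))
      (ℓ * rr (1 / 2) t * 1 - ℓ * rr (1 / 2) t * Real.cos (a.al 2 t (rep a ℓ t q)))
      (Icc 0 1) q := by
    intro q hq
    have hm := rep_mem S ht hℓ hs hq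
    have d1 := HasDerivWithinAt.comp q (h₂ := a.X 2 t) (h := rep a ℓ t) (S.A.pX 2 ht hm)
      ((rep_deriv S ht hℓ hs hq).hasDerivWithinAt (s := Icc 0 1))
      (fun q hq => rep_mem S ht hℓ hs hq)
    have d2 : HasDerivWithinAt (fun q : ℝ => ℓ * rr (1 / 2) t * q) (ℓ * rr (1 / 2) t * 1)
      (Icc 0 1) q := ((hasDerivAt_id' q).const_mul _).hasDerivWithinAt
    refine (d2.sub d1).congr_deriv ?_
    have h1 := (S.A.pos 2 t ht _ hm).ne'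
    rw [AFd.tx]
    field_simp
  have hm := wmono hd (le_refl _) (le_refl _) (fun q _ => by
    have := Real.cos_le_one (a.al 2 t (rep a ℓ t q))
    have : 0 < ℓ * rr (1 / 2) t := by positivity
    nlinarith) z0 hp hp.1
  simp only at hm
  have e0 : rep a ℓ t 0 = 0 := by rw [rep, zero_mul, Pf_zero]
  rw [e0, (S.junc_eq ht 2).1] at hm
  have : ℓ * rr (1 / 2) t * p ≤ ℓ * rr (1 / 2) t := by
    have : 0 < ℓ * rr (1 / 2) t := by positivity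
    nlinarith [hp.2]
  linarith

end

section
variable {M b : ℝ} {t : ℕ → ℝ} (hM : 0 < M)
  (ht : ∀ n, t n ∈ Ico (1 / 4 : ℝ) (1 / 2)) (hlim : Tendsto t atTop (𝓝 (1 / 2)))
  (hxt : ∀ n, xa g (t n) < M * rr (1 / 2) (t n)) (hb : 41 / 40 ≤ b)
  (hxa : Tendsto (fun n => xa g (t n) / rr (1 / 2) (t n)) atTop (𝓝 b))
  (hya : Tendsto (fun n => ya g (t n) / rr (1 / 2) (t n)) atTop (𝓝 0))
include hM ht hlim hxt hb hxa hya

theorem arm_ray (σ τ : Bool) : RayConv (fun n => rescale (1 / 2) (t n) 0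
    ((NN a (.arm σ τ)).c (t n))) ((sg σ : ℂ) * b) (sg σ) := by
  intro ℓ hℓ
  have H := hE S
  have htI : ∀ n, t n ∈ Ioo 0 (1 / 2 : ℝ) := fun n => H.mem (ht n)
  have z0 : (0:ℝ) ∈ Icc (0:ℝ) 1 := ⟨le_refl _, zero_le_one⟩
  have z1 : (1:ℝ) ∈ Icc (0:ℝ) 1 := ⟨zero_le_one, le_refl _⟩
  set s2 := M + 1 + ℓ with hs2
  obtain ⟨hr0, hE0⟩ := exp_tendsto ht hlim s2
  -- eventually small
  have hev1 : ∀ᶠ n in atTop, ℓ * rr (1 / 2) (t n) ≤ a.L 2 (t n) := by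
    have h1 : Tendsto (fun n => ℓ * rr (1 / 2) (t n)) atTop (𝓝 0) := by
      simpa using hr0.const_mul ℓ
    filter_upwards [h1.eventually (gt_mem_nhds one_pos)] with n hn
    have := (L2pos S (htI n)).2.2.2
    linarith
  have hev2 : ∀ᶠ n in atTop, s2 * rr (1 / 2) (t n) ≤ RR := by
    have h1 : Tendsto (fun n => s2 * rr (1 / 2) (t n)) atTop (𝓝 0) := by
      simpa using hr0.const_mul s2
    filter_upwards [h1.eventually (gt_mem_nhds (by rw [RR]; norm_num : (0:ℝ) < RR))] with n hn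
    exact hn.le
  have hθ : ∀ ε > 0, ∀ᶠ n in atTop, ∀ p ∈ Icc (0:ℝ) 1, |a.al 2 (t n) (rep a ℓ (t n) p)| < ε := by
    intro ε hε
    have h1 : Tendsto (fun n => KQ * (12 * M / π) *
        (Real.exp (Real.log (rr (1 / 2) (t n)) / 5000) * Real.exp (s2 ^ 2))) atTop (𝓝 0) := by
      simpa using hE0.const_mul (KQ * (12 * M / π))
    filter_upwards [hev1, hev2, h1.eventually (gt_mem_nhds hε)] with n a1 a2 a3 p hp
    have hm := rep_mem S (htI n) hℓ a1 hp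
    have hx := arm_x S (htI n) hℓ a1 hp
    have hr := rr_pos (ht n).2
    have h2 := arm_small S (ht n) (hxt n) (s2 := s2) (by rw [hs2]; linarith) a2 hm (by
      have := hxt n
      rw [hs2]
      nlinarith)
    have e : a.al 2 (t n) (rep a ℓ (t n) p) = a.th 2 (t n) (rep a ℓ (t n) p) := by
      rw [AFd.al, cang2, zero_add]
    rw [e, abs_of_nonneg h2.2.2.1]
    exact h2.2.2.2.trans_lt a3
  have e0 : ∀ n, rep a ℓ (t n) 0 = 0 := fun n => by rw [rep, zero_mul, Pf_zero]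
  have hc0 : ∀ n, rescale (1 / 2) (t n) 0 ((NN a (.arm σ τ)).c (t n)) 0 - (sg σ : ℂ) * b =
      ((sg σ * (xa g (t n) / rr (1 / 2) (t n) - b) : ℝ) : ℂ) +
      ((sg τ * (ya g (t n) / rr (1 / 2) (t n)) : ℝ) : ℂ) * Complex.I := by
    intro n
    rw [resc_eq S (htI n)]
    show ((sg σ * a.X 2 (t n) 0 / rr (1 / 2) (t n) : ℝ) : ℂ) +
      ((sg τ * a.Y 2 (t n) 0 / rr (1 / 2) (t n) : ℝ) : ℂ) * Complex.I - _ = _
    rw [(S.junc_eq (htI n) 2).1, (S.junc_eq (htI n) 2).2]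
    push_cast; ring
  -- derivative of the segment
  have hL : ∀ p : ℝ, HasDerivAt (seg ((sg σ : ℂ) * b) ((sg σ : ℂ) * b + ℓ * (sg σ : ℂ)))
      ((ℓ * sg σ : ℝ) : ℂ) p := by
    intro p
    have h1 : HasDerivAt (fun p : ℝ => (p : ℂ)) 1 p := Complex.ofRealCLM.hasDerivAt
    have h2 : HasDerivAt (seg ((sg σ : ℂ) * b) ((sg σ : ℂ) * b + ℓ * (sg σ : ℂ)))
      (1 * ((sg σ : ℂ) * b + ℓ * (sg σ : ℂ) - (sg σ : ℂ) * b)) p := (h1.mul_const _).const_add _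
    refine h2.congr_deriv ?_
    push_cast; ring
  have hder : ∀ ε > 0, ∀ᶠ n in atTop, ∀ p ∈ Icc (0:ℝ) 1,
      ‖(((ℓ * (sg σ * Real.cos (a.al 2 (t n) (rep a ℓ (t n) p))) : ℝ) : ℂ) +
        ((ℓ * (sg τ * Real.sin (a.al 2 (t n) (rep a ℓ (t n) p))) : ℝ) : ℂ) * Complex.I) -
        ((ℓ * sg σ : ℝ) : ℂ)‖ < ε := by
    intro ε hε
    filter_upwards [hθ (ε / (2 * ℓ)) (by positivity)] with n hn p hp
    have h1 := hn p hp
    set α := a.al 2 (t n) (rep a ℓ (t n) p) with hα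
    have e : (((ℓ * (sg σ * Real.cos α) : ℝ) : ℂ) + ((ℓ * (sg τ * Real.sin α) : ℝ) : ℂ) *
      Complex.I) - ((ℓ * sg σ : ℝ) : ℂ) = ((ℓ * (sg σ * (Real.cos α - 1)) : ℝ) : ℂ) +
      ((ℓ * (sg τ * Real.sin α) : ℝ) : ℂ) * Complex.I := by push_cast; ring
    rw [e]
    refine (norm_xy _ _).trans_lt ?_
    rw [abs_mul, abs_mul ℓ, sg_abs, sg_abs, abs_of_pos hℓ]
    have c1 := (sc_lip α 0).2
    have c2 := (sc_lip α 0).1
    rw [Real.cos_zero, sub_zero] at c1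
    rw [Real.sin_zero, sub_zero, sub_zero] at c2
    rw [lt_div_iff₀ (by positivity)] at h1
    nlinarith
  have hpos : ∀ ε > 0, ∀ᶠ n in atTop, ∀ p ∈ Icc (0:ℝ) 1,
      ‖rescale (1 / 2) (t n) 0 ((NN a (.arm σ τ)).c (t n)) (rep a ℓ (t n) p) -
        seg ((sg σ : ℂ) * b) ((sg σ : ℂ) * b + ℓ * (sg σ : ℂ)) p‖ < ε := by
    intro ε hε
    have h1 := (Metric.tendsto_nhds.1 hxa) (ε / 4) (by positivity)
    have h2 := (Metric.tendsto_nhds.1 hya) (ε / 4) (by positivity)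
    filter_upwards [h1, h2, hder (ε / 4) (by positivity), hev1] with n a1 a2 a3 a4 p hp
    rw [Real.dist_eq] at a1 a2
    rw [sub_zero] at a2
    set f : ℝ → ℂ := fun q => rescale (1 / 2) (t n) 0 ((NN a (.arm σ τ)).c (t n))
      (rep a ℓ (t n) q) - seg ((sg σ : ℂ) * b) ((sg σ : ℂ) * b + ℓ * (sg σ : ℂ)) q with hf
    have hfd : ∀ q ∈ Icc (0:ℝ) 1, HasDerivWithinAt f
      ((((ℓ * (sg σ * Real.cos (a.al 2 (t n) (rep a ℓ (t n) q))) : ℝ) : ℂ) +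
        ((ℓ * (sg τ * Real.sin (a.al 2 (t n) (rep a ℓ (t n) q))) : ℝ) : ℂ) * Complex.I) -
        ((ℓ * sg σ : ℝ) : ℂ)) (Icc 0 1) q := fun q hq =>
      (arm_deriv S (htI n) hℓ a4 σ τ hq).sub (hL q).hasDerivWithinAt
    have hmv := (convex_Icc (0:ℝ) 1).norm_image_sub_le_of_norm_hasDerivWithin_le (C := ε / 4) hfd
      (fun q hq => (a3 q hq).le) z0 hp
    have hf0 : ‖f 0‖ < ε / 2 := by
      have : f 0 = ((sg σ * (xa g (t n) / rr (1 / 2) (t n) - b) : ℝ) : ℂ) +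
        ((sg τ * (ya g (t n) / rr (1 / 2) (t n)) : ℝ) : ℂ) * Complex.I := by
        rw [← hc0 n, hf]
        simp only [e0, seg]
        push_cast; ring
      rw [this]
      refine (norm_xy _ _).trans_lt ?_
      rw [sg_abs, sg_abs]
      linarith
    have h5 : ‖p - 0‖ ≤ 1 := by
      rw [sub_zero, Real.norm_eq_abs, abs_of_nonneg hp.1]; exact hp.2
    have h6 : ‖f p‖ ≤ ‖f p - f 0‖ + ‖f 0‖ := by
      have := norm_add_le (f p - f 0) (f 0)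
      rwa [sub_add_cancel] at this
    have h7 : ε / 4 * ‖p - 0‖ ≤ ε / 4 := by nlinarith [norm_nonneg (p - 0)]
    show ‖f p‖ < ε
    linarith
  refine ⟨fun n => rep a ℓ (t n), ?_, ?_, ?_⟩
  · filter_upwards [hev1] with n hn
    refine ⟨e0 n, fun p hp => ⟨rep_mem S (htI n) hℓ hn hp, ?_⟩⟩
    rw [(rep_deriv S (htI n) hℓ hn hp).hasDerivWithinAt.derivWithin
      (uniqueDiffOn_Icc zero_lt_one p hp)]
    exact rep_pos S (htI n) hℓ hn hp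
  · refine c1conv_of (c' := fun n p =>
      ((ℓ * (sg σ * Real.cos (a.al 2 (t n) (rep a ℓ (t n) p))) : ℝ) : ℂ) +
        ((ℓ * (sg τ * Real.sin (a.al 2 (t n) (rep a ℓ (t n) p))) : ℝ) : ℂ) * Complex.I)
      (L' := fun _ => ((ℓ * sg σ : ℝ) : ℂ)) ?_ (fun p _ => (hL p).hasDerivWithinAt) hpos hder
    filter_upwards [hev1] with n hn p hp
    exact arm_deriv S (htI n) hℓ hn σ τ hp
  · intro ρ hρ
    have hnorm : ‖(sg σ : ℂ) * b + ℓ * (sg σ : ℂ)‖ = b + ℓ := by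
      have e : (sg σ : ℂ) * b + ℓ * (sg σ : ℂ) = ((sg σ * (b + ℓ) : ℝ) : ℂ) := by push_cast; ring
      rw [e, Complex.norm_real, Real.norm_eq_abs, sg_abs, abs_of_pos (by linarith)]
    rw [hnorm] at hρ
    filter_upwards [hev1, hpos (b + ℓ - ρ) (by linarith)] with n a1 a2 p hp
    have hm1 := rep_mem S (htI n) hℓ a1 z1
    have hpI : p ∈ Icc (0:ℝ) 1 := ⟨hm1.1.trans hp.1, hp.2⟩
    have N := NSt S (htI n)
    have hr := rr_pos (ht n).2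
    have h1 : a.X 2 (t n) (rep a ℓ (t n) 1) ≤ a.X 2 (t n) p := N.a_mono.monotoneOn hm1 hpI hp.1
    have h2 := a2 1 z1
    have h3 : rescale (1 / 2) (t n) 0 ((NN a (.arm σ τ)).c (t n)) (rep a ℓ (t n) 1) -
      seg ((sg σ : ℂ) * b) ((sg σ : ℂ) * b + ℓ * (sg σ : ℂ)) 1 =
      ((sg σ * (a.X 2 (t n) (rep a ℓ (t n) 1) / rr (1 / 2) (t n) - (b + ℓ)) : ℝ) : ℂ) +
      ((sg τ * a.Y 2 (t n) (rep a ℓ (t n) 1) / rr (1 / 2) (t n) : ℝ) : ℂ) * Complex.I := by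
      rw [resc_eq S (htI n), seg]
      show ((sg σ * a.X 2 (t n) (rep a ℓ (t n) 1) / rr (1 / 2) (t n) : ℝ) : ℂ) +
        ((sg τ * a.Y 2 (t n) (rep a ℓ (t n) 1) / rr (1 / 2) (t n) : ℝ) : ℂ) * Complex.I - _ = _
      push_cast; ring
    rw [h3] at h2
    have h4 : |sg σ * (a.X 2 (t n) (rep a ℓ (t n) 1) / rr (1 / 2) (t n) - (b + ℓ))| < b + ℓ - ρ := by
      refine lt_of_le_of_lt ?_ h2
      have := Complex.abs_re_le_norm (((sg σ * (a.X 2 (t n) (rep a ℓ (t n) 1) /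
        rr (1 / 2) (t n) - (b + ℓ)) : ℝ) : ℂ) +
        ((sg τ * a.Y 2 (t n) (rep a ℓ (t n) 1) / rr (1 / 2) (t n) : ℝ) : ℂ) * Complex.I)
      simpa [-Complex.ofReal_mul, -Complex.ofReal_div, -Complex.ofReal_sub] using this
    rw [sg_abs] at h4
    have h5 := (abs_lt.1 h4).1
    have h6 : ρ < a.X 2 (t n) p / rr (1 / 2) (t n) := by
      have := div_le_div_of_nonneg_right h1 hr.le
      linarith
    refine h6.trans_le ?_
    have h7 := Complex.abs_re_le_norm (rescale (1 / 2) (t n) 0 ((NN a (.arm σ τ)).c (t n)) p)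
    refine le_trans ?_ h7
    rw [resc_eq S (htI n)]
    have h8 : ((((NP a (.arm σ τ)).x (t n) p / rr (1 / 2) (t n) : ℝ) : ℂ) +
      (((NP a (.arm σ τ)).y (t n) p / rr (1 / 2) (t n) : ℝ) : ℂ) * Complex.I).re =
      (NP a (.arm σ τ)).x (t n) p / rr (1 / 2) (t n) := by simp [-Complex.ofReal_div]
    rw [h8]
    show _ ≤ |sg σ * a.X 2 (t n) p / rr (1 / 2) (t n)|
    rw [mul_div_assoc, sg_abs]
    exact le_abs_self _

end

end

end Run7.h661v
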