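import Pool.Agent.Run7.h661.V.App

/-!
# The limit of the rescaled caps
-/

open Set Filter Topology
open scoped Real ContDiff

namespace Run7.h661v

open Run7.h661x Run7.h661z
open Run7.h661y (cang cang0 cang1 cang2 HypE xa ya yM rr rr_pos tendsto_rr rr_sq)

lemma subseq {𝒰 : Ultrafilter ℕ} (h𝒰 : (𝒰 : Filter ℕ) ≤ atTop) {P : ℝ → ℕ → Prop}
    (h : ∀ ε > 0, ∀ᶠ n in (𝒰 : Filter ℕ), P ε n) :
    ∃ φ : ℕ → ℕ, Tendsto φ atTop atTop ∧ ∀ k : ℕ, P (1 / ((k : ℝ) + 1)) (φ k) := by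
  have h1 : ∀ k : ℕ, ∃ n, P (1 / ((k : ℝ) + 1)) n ∧ k ≤ n := by
    intro k
    exact ((h _ (by positivity)).and (h𝒰 (eventually_ge_atTop k))).exists
  choose φ hφ1 hφ2 using h1
  exact ⟨φ, tendsto_atTop_mono hφ2 tendsto_id, hφ1⟩

section
variable {g : Fin 3 → ℝ → ℝ → ℂ} {a : AFd} (S : St (1 / 2) a g)
include S

/-- smallness of the arm near the origin -/
lemma arm_small {t M s2 q : ℝ} (ht : t ∈ Ico (1 / 4 : ℝ) (1 / 2)) (hM : xa g t < M * rr (1 / 2) t)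
    (hs2 : M + 1 ≤ s2) (hR : s2 * rr (1 / 2) t ≤ RR) (hq : q ∈ Icc (0:ℝ) 1)
    (hx : a.X 2 t q ≤ s2 * rr (1 / 2) t) :
    0 ≤ a.Y 2 t q ∧ a.Y 2 t q / rr (1 / 2) t ≤
      Real.exp (Real.log (rr (1 / 2) t) / 5000) * Real.exp (s2 ^ 2) ∧
    0 ≤ a.th 2 t q ∧ a.th 2 t q ≤ KQ * (12 * M / π) *
      (Real.exp (Real.log (rr (1 / 2) t) / 5000) * Real.exp (s2 ^ 2)) := by
  have H := hE S
  have htI := H.mem ht
  have hsc := H.secAt ht
  have hr := rr_pos ht.2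
  have hpi := Real.pi_pos
  have z0 : (0:ℝ) ∈ Icc (0:ℝ) 1 := ⟨le_refl _, zero_le_one⟩
  have z1 : (1:ℝ) ∈ Icc (0:ℝ) 1 := ⟨zero_le_one, le_refl _⟩
  have N := NSt S htI
  have hxa := (S.junc_eq htI 0).1
  -- the point at distance `s2 r`
  have hcont : ContinuousOn (a.X 2 t) (Icc 0 1) := fun p hp => (S.A.pX 2 htI hp).continuousWithinAt
  have hv : s2 * rr (1 / 2) t ∈ Icc (a.X 2 t 0) (a.X 2 t 1) := by
    rw [(S.junc_eq htI 2).1, (S.endp t htI).1]
    refine ⟨?_, hR⟩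
    nlinarith
  obtain ⟨q', hq', hq'x⟩ := intermediate_value_Icc zero_le_one hcont hv
  have hqq : q ≤ q' := by
    by_contra hcon
    push Not at hcon
    have h3 : a.X 2 t q' < a.X 2 t q := N.a_mono hq' hq hcon
    rw [hq'x] at h3
    linarith
  have hh := H.height ht hM (s := s2) (s2 := s2) hs2 le_rfl hq'
    (by rw [(S.C.re_eq S.A 2 htI hq').1]; exact hq'x)
  have hymono := H.qf.y2_mono htI hsc hq hq' hqq
  rw [(S.C.re_eq S.A 2 htI hq').2] at hh hymono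
  rw [(S.C.re_eq S.A 2 htI hq).2] at hymono
  have hy0 : 0 ≤ a.Y 2 t q := by
    have h1 : a.Y 0 t 0 ≤ a.Y 2 t q := (N.a_y hq).1
    exact N.ya0.le.trans h1
  have hyr : a.Y 2 t q / rr (1 / 2) t ≤
      Real.exp (Real.log (rr (1 / 2) t) / 5000) * Real.exp (s2 ^ 2) :=
    (div_le_div_of_nonneg_right hymono hr.le).trans hh
  refine ⟨hy0, hyr, (S.sec 2 t htI q hq).1, ?_⟩
  have hW := H.hW t ht 2 q hq
  rw [S.th_eq 2 htI hq, (S.C.re_eq S.A 2 htI hq).2] at hW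
  refine hW.trans ?_
  have hyM := H.yM_lower ht hM
  have hyMpos := H.qf.yM_pos htI hsc
  have hMpos : 0 < M := by
    by_contra hcon
    push Not at hcon
    have h1 := (H.concl_all ht).big
    nlinarith
  have hK := H.Kpos
  have a3 : 1 / yM g t ≤ 12 * M / π / rr (1 / 2) t := by
    rw [div_div, div_le_div_iff₀ hyMpos (by positivity)]
    nlinarith
  calc KQ / yM g t * a.Y 2 t q = KQ * a.Y 2 t q * (1 / yM g t) := by ring
    _ ≤ KQ * a.Y 2 t q * (12 * M / π / rr (1 / 2) t) :=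
        mul_le_mul_of_nonneg_left a3 (mul_nonneg hK.le hy0)
    _ = KQ * (12 * M / π) * (a.Y 2 t q / rr (1 / 2) t) := by ring
    _ ≤ _ := mul_le_mul_of_nonneg_left hyr (by positivity)

omit S in
lemma exp_tendsto {t : ℕ → ℝ} (ht : ∀ n, t n ∈ Ico (1 / 4 : ℝ) (1 / 2))
    (hlim : Tendsto t atTop (𝓝 (1 / 2))) (s2 : ℝ) :
    Tendsto (fun n => rr (1 / 2) (t n)) atTop (𝓝 0) ∧
    Tendsto (fun n => Real.exp (Real.log (rr (1 / 2) (t n)) / 5000) * Real.exp (s2 ^ 2)) atTop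
      (𝓝 0) := by
  have hlimw : Tendsto t atTop (𝓝[<] (1 / 2)) :=
    tendsto_nhdsWithin_iff.2 ⟨hlim, Eventually.of_forall (fun n => (ht n).2)⟩
  have hr0 : Tendsto (fun n => rr (1 / 2) (t n)) atTop (𝓝 0) := (tendsto_rr (1 / 2)).comp hlimw
  refine ⟨hr0, ?_⟩
  have h1 : Tendsto (fun n => rr (1 / 2) (t n)) atTop (𝓝[>] 0) :=
    tendsto_nhdsWithin_iff.2 ⟨hr0, Eventually.of_forall (fun n => rr_pos (ht n).2)⟩
  have h2 : Tendsto (fun n => Real.log (rr (1 / 2) (t n))) atTop atBot :=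
    Real.tendsto_log_nhdsGT_zero.comp h1
  have h3 : Tendsto (fun n => Real.log (rr (1 / 2) (t n)) / 5000) atTop atBot :=
    h2.atBot_div_const (by norm_num)
  have h4 := Real.tendsto_exp_atBot.comp h3
  simpa using h4.mul_const (Real.exp (s2 ^ 2))

/-- good times -/
lemma good_times : ∃ (M : ℝ) (t : ℕ → ℝ), 0 < M ∧ (∀ n, t n ∈ Ico (1 / 4 : ℝ) (1 / 2)) ∧
    Tendsto t atTop (𝓝 (1 / 2)) ∧ (∀ n, xa g (t n) < M * rr (1 / 2) (t n)) ∧
    ∀ n : ℕ, rr (1 / 2) (t n) ^ 2 * Gt a (t n) ≤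
      (1 / ((n : ℝ) + 1)) ^ 2 / Real.exp (13 * M ^ 2) := by
  obtain ⟨M, hM, hsel⟩ := select S
  have hTn : ∀ n : ℕ, max (1 / 4 : ℝ) (1 / 2 - 1 / (n + 1)) ∈ Ico (1 / 4 : ℝ) (1 / 2) := by
    intro n
    refine ⟨le_max_left _ _, max_lt (by norm_num) ?_⟩
    have : (0:ℝ) < 1 / (n + 1) := by positivity
    linarith
  choose t ht hxt hG using fun n : ℕ => hsel ((1 / ((n : ℝ) + 1)) ^ 2 / Real.exp (13 * M ^ 2))
    (by positivity) (max (1 / 4 : ℝ) (1 / 2 - 1 / (n + 1))) (hTn n)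
  refine ⟨M, t, hM, fun n => ⟨(hTn n).1.trans (ht n).1, (ht n).2⟩, ?_, hxt, fun n => (hG n).le⟩
  refine tendsto_of_tendsto_of_tendsto_of_le_of_le
    (g := fun n : ℕ => (1 / 2 : ℝ) - 1 / ((n:ℝ) + 1)) (h := fun _ => (1 / 2 : ℝ)) ?_
    tendsto_const_nhds ?_ ?_
  · have := (tendsto_one_div_add_atTop_nhds_zero_nat (𝕜 := ℝ)).const_sub (1 / 2 : ℝ)
    simpa using this
  · intro n
    exact (le_max_right _ _).trans (ht n).1
  · intro n
    exact (ht n).2.le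

/-- the rescaled half caps -/
noncomputable def xh (a : AFd) (t q : ℝ) : ℝ := a.X 1 t (a.pp t q) / rr (1 / 2) t
noncomputable def yh (a : AFd) (t q : ℝ) : ℝ := a.Y 1 t (a.pp t q) / rr (1 / 2) t
noncomputable def th (a : AFd) (t q : ℝ) : ℝ := a.al 1 t (a.pp t q)
noncomputable def lh (a : AFd) (t : ℝ) : ℝ := a.L 1 t / rr (1 / 2) t

/-- derivatives of the half caps -/
lemma half_derivs {t : ℝ} (ht : t ∈ Ioo 0 (1 / 2 : ℝ)) {q : ℝ} (hq : q ∈ Icc (0:ℝ) 1) :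
    HasDerivWithinAt (xh a t) (lh a t * Real.cos (th a t q)) (Icc 0 1) q ∧
    HasDerivWithinAt (yh a t) (lh a t * Real.sin (th a t q)) (Icc 0 1) q ∧
    HasDerivWithinAt (th a t) (a.L 1 t * a.k 1 t (a.pp t q)) (Icc 0 1) q := by
  have A := S.A
  obtain ⟨l0, l1⟩ := A.L0pos ht
  have hR := (A.rp_pos ht hq).ne'
  have e := A.ro_pp ht hq
  simp only [AFd.pp, AFd.rp] at e hR
  have hr := (rr_pos ht.2).ne'
  refine ⟨?_, ?_, ?_⟩
  · refine ((comp_Pf l0 l1 (F := a.X 1 t) (fun p hp => A.pX 1 ht hp) hq).div_const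
      (rr (1 / 2) t)).congr_deriv ?_
    rw [AFd.tx, e, lh, th, AFd.pp]
    field_simp
  · refine ((comp_Pf l0 l1 (F := a.Y 1 t) (fun p hp => A.pY 1 ht hp) hq).div_const
      (rr (1 / 2) t)).congr_deriv ?_
    rw [AFd.ty, e, lh, th, AFd.pp]
    field_simp
  · refine (comp_Pf l0 l1 (F := a.al 1 t) (fun p hp => A.pal 1 ht hp) hq).congr_deriv ?_
    have e2 := A.D_eq 1 ht (A.pp_mem ht hq)
    simp only [AFd.pp] at e2 ⊢
    rw [e2, e]
    field_simp

/-- the half caps are approximate shrinkers -/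
lemma half_approx {t M s : ℝ} (ht : t ∈ Ico (1 / 4 : ℝ) (1 / 2)) (hM : xa g t < M * rr (1 / 2) t)
    (hs : 0 < s) (hG : rr (1 / 2) t ^ 2 * Gt a t ≤ s ^ 2 / Real.exp (13 * M ^ 2)) {p : ℝ}
    (hp : p ∈ Icc (0:ℝ) 1) :
    |th a t p - th a t 0 + lh a t * In (nn (xh a t) (yh a t) (th a t)) p| ≤ s * (1 / 2 + M) := by
  have H := hE S
  have htI := H.mem ht
  have A := S.A
  have hr := rr_pos ht.2
  have hu : rr (1 / 2) t ^ 2 = 1 - 2 * t := by rw [rr_sq ht.2.le]; ring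
  obtain ⟨l0, l1⟩ := A.L0pos htI
  have hcx : ContinuousOn (xh a t) (Icc 0 1) := fun q hq => (half_derivs S htI hq).1.continuousWithinAt
  have hcy : ContinuousOn (yh a t) (Icc 0 1) := fun q hq =>
    (half_derivs S htI hq).2.1.continuousWithinAt
  have hct : ContinuousOn (th a t) (Icc 0 1) := fun q hq =>
    (half_derivs S htI hq).2.2.continuousWithinAt
  have hcn : ContinuousOn (nn (xh a t) (yh a t) (th a t)) (Icc 0 1) :=
    ((hcx.mul (Real.continuous_sin.comp_continuousOn hct)).neg).add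
      (hcy.mul (Real.continuous_cos.comp_continuousOn hct))
  have hsl : ∀ {F : ℝ → ℝ → ℝ}, CS (1 / 2) F → ContinuousOn (F t) (Icc 0 1) := by
    intro F hF
    exact ContinuousOn.comp (g := fun q : ℝ × ℝ => F q.1 q.2) (f := fun p => (t, p)) hF
      (by fun_prop) (fun p hp => ⟨htI, hp⟩)
  have E := eg_ed A 1
  have hz : ContinuousOn (fun q => (a.k 1 t q + (edE a 1).n t q / (1 - 2 * t)) * a.ro 1 t q)
      (Icc 0 1) := ((hsl E.ck).add ((hsl E.cn).div_const _)).mul (hsl E.cro)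
  have hzero : a.pp t 0 = 0 := Pf_zero _ _
  have key := eq_of_derivs
    (f := fun p => th a t p + lh a t * In (nn (xh a t) (yh a t) (th a t)) p)
    (g := fun p => In (fun q => (a.k 1 t q + (edE a 1).n t q / (1 - 2 * t)) * a.ro 1 t q) (a.pp t p))
    (f' := fun p => a.L 1 t * (a.k 1 t (a.pp t p) + (edE a 1).n t (a.pp t p) / (1 - 2 * t)))
    (fun q hq => by
      have h1 := (half_derivs S htI hq).2.2.add ((In_deriv hcn hq).const_mul (lh a t))
      refine h1.congr_deriv ?_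
      have hn : nn (xh a t) (yh a t) (th a t) q = (edE a 1).n t (a.pp t q) / rr (1 / 2) t := by
        rw [nn, Ee.n, xh, yh, th]
        show _ = (-(a.X 1 t (a.pp t q) * Real.sin (a.al 1 t (a.pp t q))) +
          a.Y 1 t (a.pp t q) * Real.cos (a.al 1 t (a.pp t q))) / rr (1 / 2) t
        ring
      rw [hn, lh, ← hu]
      field_simp)
    (fun q hq => by
      have h1 := comp_Pf l0 l1 (F := In (fun q => (a.k 1 t q + (edE a 1).n t q / (1 - 2 * t)) *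
        a.ro 1 t q)) (fun p hp => In_deriv hz hp) hq
      refine HasDerivWithinAt.congr_deriv (f := fun p => In (fun q => (a.k 1 t q +
        (edE a 1).n t q / (1 - 2 * t)) * a.ro 1 t q) (a.pp t p)) h1 ?_
      have hR := (A.rp_pos htI hq).ne'
      have e := A.ro_pp htI hq
      simp only [AFd.pp, AFd.rp] at e hR
      simp only [AFd.pp]
      rw [e]
      field_simp) hp
  simp only [hzero, In_zero, mul_zero, add_zero, sub_zero] at key
  have h2 := defect S ht hM hs hG (A.pp_mem htI hp)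
  rw [← key] at h2
  have e : th a t p - th a t 0 + lh a t * In (nn (xh a t) (yh a t) (th a t)) p =
    th a t p + lh a t * In (nn (xh a t) (yh a t) (th a t)) p - th a t 0 := by ring
  rw [e]
  exact h2

/-- The rescaled half caps converge, along a sequence of times, to a shrinker. -/
theorem caps_lim : ∃ (M : ℝ) (t : ℕ → ℝ) (b l : ℝ) (X Y Θ : ℝ → ℝ), 0 < M ∧
    (∀ n, t n ∈ Ico (1 / 4 : ℝ) (1 / 2)) ∧ Tendsto t atTop (𝓝 (1 / 2)) ∧
    (∀ n, xa g (t n) < M * rr (1 / 2) (t n)) ∧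
    41 / 40 ≤ b ∧ 41 / 40 ≤ l ∧ Tendsto (fun n => xa g (t n) / rr (1 / 2) (t n)) atTop (𝓝 b) ∧
    Tendsto (fun n => ya g (t n) / rr (1 / 2) (t n)) atTop (𝓝 0) ∧
    Tendsto (fun n => lh a (t n)) atTop (𝓝 l) ∧ UT atTop (fun n => xh a (t n)) X ∧
    UT atTop (fun n => yh a (t n)) Y ∧ UT atTop (fun n => th a (t n)) Θ ∧
    (∀ p ∈ Icc (0:ℝ) 1, HasDerivWithinAt X (l * Real.cos (Θ p)) (Icc 0 1) p) ∧
    (∀ p ∈ Icc (0:ℝ) 1, HasDerivWithinAt Y (l * Real.sin (Θ p)) (Icc 0 1) p) ∧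
    (∀ p ∈ Icc (0:ℝ) 1, HasDerivWithinAt Θ (-(l * nn X Y Θ p)) (Icc 0 1) p) ∧
    Θ 0 = 2 * π / 3 := by
  have H := hE S
  obtain ⟨M, t, hM, ht, hlim, hxt, hG⟩ := good_times S
  have hpi := Real.pi_pos
  have z0 : (0:ℝ) ∈ Icc (0:ℝ) 1 := ⟨le_refl _, zero_le_one⟩
  have z1 : (1:ℝ) ∈ Icc (0:ℝ) 1 := ⟨zero_le_one, le_refl _⟩
  have htI : ∀ n, t n ∈ Ioo 0 (1 / 2 : ℝ) := fun n => H.mem (ht n)
  have hr : ∀ n, 0 < rr (1 / 2) (t n) := fun n => rr_pos (ht n).2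
  obtain ⟨hr0, hE0⟩ := exp_tendsto ht hlim (M + 1)
  set 𝒰 : Ultrafilter ℕ := hyperfilter ℕ with h𝒰'
  have h𝒰 : (𝒰 : Filter ℕ) ≤ atTop := Nat.hyperfilter_le_atTop
  -- heights and angles at the junction
  have hRev : ∀ᶠ n in atTop, (M + 1) * rr (1 / 2) (t n) ≤ RR := by
    have h1 : Tendsto (fun n => (M + 1) * rr (1 / 2) (t n)) atTop (𝓝 0) := by
      simpa using hr0.const_mul (M + 1)
    filter_upwards [h1.eventually (gt_mem_nhds (by rw [RR]; norm_num : (0:ℝ) < RR))] with n hn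
    exact hn.le
  have hsm : ∀ᶠ n in atTop, ya g (t n) / rr (1 / 2) (t n) ≤
      Real.exp (Real.log (rr (1 / 2) (t n)) / 5000) * Real.exp ((M + 1) ^ 2) ∧
      a.th 2 (t n) 0 ≤ KQ * (12 * M / π) *
        (Real.exp (Real.log (rr (1 / 2) (t n)) / 5000) * Real.exp ((M + 1) ^ 2)) := by
    filter_upwards [hRev] with n hn
    have h1 := arm_small S (ht n) (hxt n) (s2 := M + 1) le_rfl hn z0 (by
      rw [(S.junc_eq (htI n) 2).1]
      have := hxt n
      have := hr n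
      nlinarith)
    rw [(S.junc_eq (htI n) 2).2] at h1
    exact ⟨h1.2.1, h1.2.2.2⟩
  have hya0 : Tendsto (fun n => ya g (t n) / rr (1 / 2) (t n)) atTop (𝓝 0) := by
    refine tendsto_of_tendsto_of_tendsto_of_le_of_le' tendsto_const_nhds hE0
      (Eventually.of_forall (fun n => ?_)) ?_
    · exact div_nonneg (H.qf.ya_pos (htI n) (H.secAt (ht n))).le (hr n).le
    · filter_upwards [hsm] with n hn
      exact hn.1
  have hth0 : Tendsto (fun n => a.th 2 (t n) 0) atTop (𝓝 0) := by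
    have h1 : Tendsto (fun n => KQ * (12 * M / π) *
        (Real.exp (Real.log (rr (1 / 2) (t n)) / 5000) * Real.exp ((M + 1) ^ 2))) atTop (𝓝 0) := by
      simpa using hE0.const_mul (KQ * (12 * M / π))
    refine tendsto_of_tendsto_of_tendsto_of_le_of_le' tendsto_const_nhds h1
      (Eventually.of_forall (fun n => (S.sec 2 (t n) (htI n) 0 z0).1)) ?_
    filter_upwards [hsm] with n hn
    exact hn.2
  have hΘ0 : Tendsto (fun n => th a (t n) 0) atTop (𝓝 (2 * π / 3)) := by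
    have h1 := hth0.const_add (2 * π / 3)
    rw [add_zero] at h1
    refine h1.congr (fun n => ?_)
    rw [th, AFd.pp, Pf_zero, AFd.al, cang1, S.A.jth (t n) (htI n) 1 2]
  -- bounds
  have hlh : ∀ n, lh a (t n) ∈ Icc 0 (5 * M) := by
    intro n
    have h1 := (S.len (htI n)).2.1
    have h2 := hxt n
    have h3 := hr n
    have h4 := H.qf.xa_nonneg (htI n) (H.secAt (ht n))
    refine ⟨div_nonneg (by linarith) h3.le, ?_⟩
    rw [lh, div_le_iff₀ h3]
    nlinarith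
  have hlh2 : ∀ n, 41 / 40 ≤ lh a (t n) := by
    intro n
    have h1 := (S.len (htI n)).2.1.2
    have h2 := (H.concl_all (ht n)).big
    have h3 := hr n
    rw [lh, le_div_iff₀ h3]
    linarith
  have hxb : ∀ n, ∀ p ∈ Icc (0:ℝ) 1, |xh a (t n) p| ≤ 5 * M := by
    intro n p hp
    have h1 := (half_bds S (htI n) hp).1
    rw [xh, abs_div, abs_of_pos (hr n), div_le_iff₀ (hr n)]
    have h2 := hxt n
    have h3 := H.qf.xa_nonneg (htI n) (H.secAt (ht n))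
    linarith
  have hyb : ∀ n, ∀ p ∈ Icc (0:ℝ) 1, |yh a (t n) p| ≤ 5 * M := by
    intro n p hp
    have h1 := (half_bds S (htI n) hp).2
    rw [yh, abs_div, abs_of_pos (hr n), div_le_iff₀ (hr n)]
    have h2 := hxt n
    linarith
  have he : Tendsto (fun n : ℕ => 1 / ((n:ℝ) + 1) * (1 / 2 + M)) 𝒰 (𝓝 0) := by
    have h1 := (tendsto_one_div_add_atTop_nhds_zero_nat (𝕜 := ℝ)).mul_const (1 / 2 + M)
    rw [zero_mul] at h1
    exact h1.mono_left h𝒰
  obtain ⟨l, X, Y, Θ, hl, hll, hX, hY, hΘ, dX, dY, dΘ⟩ := abs_lim (𝒰 := 𝒰) (C := 5 * M)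
    (lam := fun n => lh a (t n)) (x := fun n => xh a (t n)) (y := fun n => yh a (t n))
    (θ := fun n => th a (t n)) (θ0 := 2 * π / 3) (e := fun n : ℕ => 1 / ((n:ℝ) + 1) * (1 / 2 + M))
    (by positivity) hlh
    (fun n q hq => (half_derivs S (htI n) hq).2.2.continuousWithinAt)
    (fun n p hp => (half_derivs S (htI n) hp).1) (fun n p hp => (half_derivs S (htI n) hp).2.1)
    hxb hyb he (hΘ0.mono_left h𝒰)
    (fun n p hp => half_approx S (ht n) (hxt n) (by positivity) (hG n) hp)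
  obtain ⟨b, hb, hbl⟩ := real_lim 𝒰 (a := fun n => xa g (t n) / rr (1 / 2) (t n)) (m := 41 / 40)
    (M := M) (fun n => by
      have h2 := (H.concl_all (ht n)).big
      have h3 := hr n
      constructor
      · rw [le_div_iff₀ h3]; exact h2.le
      · rw [div_le_iff₀ h3]; exact (hxt n).le)
  -- extraction of a subsequence
  obtain ⟨φ, hφ, hφP⟩ := subseq h𝒰 (P := fun ε n =>
      |xa g (t n) / rr (1 / 2) (t n) - b| < ε ∧ |lh a (t n) - l| < ε ∧
      (∀ p ∈ Icc (0:ℝ) 1, |xh a (t n) p - X p| < ε) ∧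
      (∀ p ∈ Icc (0:ℝ) 1, |yh a (t n) p - Y p| < ε) ∧
      (∀ p ∈ Icc (0:ℝ) 1, |th a (t n) p - Θ p| < ε)) (fun ε hε => by
    have h1 := (Metric.tendsto_nhds.1 hbl) ε hε
    have h2 := (Metric.tendsto_nhds.1 hll) ε hε
    filter_upwards [h1, h2, hX ε hε, hY ε hε, hΘ ε hε] with n a1 a2 a3 a4 a5
    rw [Real.dist_eq] at a1 a2
    exact ⟨a1, a2, a3, a4, a5⟩)
  have hev : ∀ ε > 0, ∀ᶠ k : ℕ in atTop, 1 / ((k:ℝ) + 1) < ε := by
    intro ε hε
    exact (tendsto_one_div_add_atTop_nhds_zero_nat (𝕜 := ℝ)).eventually (gt_mem_nhds hε)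
  have hΘe : Θ 0 = 2 * π / 3 :=
    tendsto_nhds_unique (UT.at hΘ z0) (hΘ0.mono_left h𝒰)
  refine ⟨M, fun k => t (φ k), b, l, X, Y, Θ, hM, fun k => ht _, hlim.comp hφ, fun k => hxt _, hb.1,
    ?_, ?_, hya0.comp hφ, ?_, ?_, ?_, ?_, dX, dY, dΘ, hΘe⟩
  · exact ge_of_tendsto hll (Eventually.of_forall hlh2)
  · rw [Metric.tendsto_nhds]
    intro ε hε
    filter_upwards [hev ε hε] with k hk
    rw [Real.dist_eq]
    exact (hφP k).1.trans hk
  · rw [Metric.tendsto_nhds]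
    intro ε hε
    filter_upwards [hev ε hε] with k hk
    rw [Real.dist_eq]
    exact (hφP k).2.1.trans hk
  · intro ε hε
    filter_upwards [hev ε hε] with k hk p hp
    exact ((hφP k).2.2.1 p hp).trans hk
  · intro ε hε
    filter_upwards [hev ε hε] with k hk p hp
    exact ((hφP k).2.2.2.1 p hp).trans hk
  · intro ε hε
    filter_upwards [hev ε hε] with k hk p hp
    exact ((hφP k).2.2.2.2 p hp).trans hk

end

end Run7.h661v
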