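import Pool.Agent.Run7.h661.V.Fold
import Pool.Agent.Run7.h661.Z.Fin

/-!
# Convergence of the rescaled networks
-/

open Set Filter Topology
open scoped Real ContDiff

namespace Run7.h661v

open Run7.h661x Run7.h661z
open Run7.h661y (cang cang0 cang1 cang2 HypE xa ya yM rr rr_pos tendsto_rr rr_sq)

lemma c1conv_of {c : ℕ → ℝ → ℂ} {L : ℝ → ℂ} {c' : ℕ → ℝ → ℂ} {L' : ℝ → ℂ}
    (h1 : ∀ᶠ n in atTop, ∀ p ∈ Icc (0:ℝ) 1, HasDerivWithinAt (c n) (c' n p) (Icc 0 1) p)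
    (h2 : ∀ p ∈ Icc (0:ℝ) 1, HasDerivWithinAt L (L' p) (Icc 0 1) p)
    (h3 : ∀ ε > 0, ∀ᶠ n in atTop, ∀ p ∈ Icc (0:ℝ) 1, ‖c n p - L p‖ < ε)
    (h4 : ∀ ε > 0, ∀ᶠ n in atTop, ∀ p ∈ Icc (0:ℝ) 1, ‖c' n p - L' p‖ < ε) : C1Conv c L := by
  intro ε hε
  filter_upwards [h1, h3 ε hε, h4 ε hε] with n a1 a3 a4 p hp
  refine ⟨a3 p hp, ?_⟩
  have hu := uniqueDiffOn_Icc (zero_lt_one (α := ℝ)) p hp
  rw [D1, D1, (a1 p hp).derivWithin hu, (h2 p hp).derivWithin hu]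
  exact a4 p hp

lemma norm_xy (x y : ℝ) : ‖(x : ℂ) + (y : ℂ) * Complex.I‖ ≤ |x| + |y| := by
  refine (norm_add_le _ _).trans ?_
  rw [norm_mul, Complex.norm_I, mul_one, Complex.norm_real, Complex.norm_real, Real.norm_eq_abs,
    Real.norm_eq_abs]

/-- the network at positive times -/
noncomputable def NP (a : AFd) : Arc → Pd := net (edP a 0) (caP a a.cK) (edP a 2) (baP a)

lemma NN_NP (a : AFd) {t : ℝ} (ht : 0 < t) (i : Arc) : (NN a i).c t = (NP a i).c t := by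
  have e : ∀ {x y : ℝ}, (if t ≤ 0 then x else y) = y := fun {x y} => if_neg (not_le.2 ht)
  funext p
  rcases i with (_ | ⟨σ, τ⟩ | τ | ⟨σ, τ⟩)
  · simp only [NN, NP, net, Pd.c, Pd.gl, e]
  · simp only [NN, NP, net, Pd.c, Pd.refl, Pd.gl, e]
  · simp only [NN, NP, net, Pd.c, Pd.refl, Pd.gl, e]
  · simp only [NN, NP, net, Pd.c, Pd.refl, Pd.gl, e]

section
variable {g : Fin 3 → ℝ → ℝ → ℂ} {a : AFd} (S : St (1 / 2) a g)
include S

lemma NP_sl {t : ℝ} (ht : t ∈ Ioo 0 (1 / 2 : ℝ)) (i : Arc) : (NP a i).Sl t := by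
  have N : NS (edP a 0) (caP a a.cK) (edP a 2) (baP a) t RR hh (a.X 0 t 0)
    (a.Y 0 t 0) (a.th 0 t 0) (a.X 0 t 1) :=
    ⟨NSt S ht, ba_sl (NSt S ht).xb0.1, fun p => ⟨rfl, rfl, rfl⟩⟩
  exact N.net_sl i

/-- the rescaled curves -/
lemma resc_eq {t : ℝ} (ht : t ∈ Ioo 0 (1 / 2 : ℝ)) (i : Arc) (p : ℝ) :
    rescale (1 / 2) t 0 ((NN a i).c t) p = (((NP a i).x t p / rr (1 / 2) t : ℝ) : ℂ) +
      (((NP a i).y t p / rr (1 / 2) t : ℝ) : ℂ) * Complex.I := by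
  rw [rescale, NN_NP a ht.1 i, sub_zero, Pd.c, rr]
  push_cast
  ring

lemma resc_deriv {t : ℝ} (ht : t ∈ Ioo 0 (1 / 2 : ℝ)) (i : Arc) {p : ℝ} (hp : p ∈ Icc (0:ℝ) 1) :
    HasDerivWithinAt (rescale (1 / 2) t 0 ((NN a i).c t))
      (((NP a i).ro t p / rr (1 / 2) t : ℝ) * uv ((NP a i).al t p)) (Icc 0 1) p := by
  have h1 := ((NP_sl S ht i).hc hp).div_const (rr (1 / 2) t : ℂ)
  have h2 : HasDerivWithinAt (rescale (1 / 2) t 0 ((NN a i).c t))
    ((((NP a i).ro t p : ℂ) * uv ((NP a i).al t p)) / (rr (1 / 2) t : ℂ)) (Icc 0 1) p :=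
    h1.congr (fun q _ => by rw [rescale, NN_NP a ht.1 i, sub_zero, rr])
      (by rw [rescale, NN_NP a ht.1 i, sub_zero, rr])
  refine h2.congr_deriv ?_
  push_cast
  ring

section
variable {M b l : ℝ} {t : ℕ → ℝ} {X Y Θ : ℝ → ℝ} (hM : 0 < M)
  (ht : ∀ n, t n ∈ Ico (1 / 4 : ℝ) (1 / 2)) (hlim : Tendsto t atTop (𝓝 (1 / 2)))
  (hxt : ∀ n, xa g (t n) < M * rr (1 / 2) (t n)) (hb : 41 / 40 ≤ b) (hl : 41 / 40 ≤ l)
  (hxa : Tendsto (fun n => xa g (t n) / rr (1 / 2) (t n)) atTop (𝓝 b))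
  (hya : Tendsto (fun n => ya g (t n) / rr (1 / 2) (t n)) atTop (𝓝 0))

include ht hya in
lemma short_bds {n : ℕ} {p : ℝ} (hp : p ∈ Icc (0:ℝ) 1) :
    |a.X 0 (t n) p / rr (1 / 2) (t n) - xa g (t n) / rr (1 / 2) (t n)| ≤
      ya g (t n) / rr (1 / 2) (t n) ∧
    |a.Y 0 (t n) p / rr (1 / 2) (t n)| ≤ ya g (t n) / rr (1 / 2) (t n) := by
  have H := hE S
  have htI := H.mem (ht n)
  have hr := rr_pos (ht n).2
  have N := NSt S htI
  obtain ⟨-, -, h1⟩ := N.s_x hp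
  obtain ⟨h2, h3, -, -⟩ := N.s_y hp
  rw [(S.junc_eq htI 0).1, (S.junc_eq htI 0).2] at h1
  rw [(S.junc_eq htI 0).2] at h3
  have h1' : |a.X 0 (t n) p - xa g (t n)| ≤ ya g (t n) := h1
  have h2' : 0 ≤ a.Y 0 (t n) p := h2
  have h3' : a.Y 0 (t n) p ≤ ya g (t n) := h3
  constructor
  · rw [← sub_div, abs_div, abs_of_pos hr]
    exact div_le_div_of_nonneg_right h1' hr.le
  · rw [abs_div, abs_of_pos hr, abs_of_nonneg h2']
    exact div_le_div_of_nonneg_right h3' hr.le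

include ht hxa hya in
lemma short_conv (σ τ : Bool) : Collapse (fun n => rescale (1 / 2) (t n) 0
    ((NN a (.short σ τ)).c (t n))) ((sg σ : ℂ) * b) := by
  intro ε hε
  have H := hE S
  have h1 := (Metric.tendsto_nhds.1 hxa) (ε / 3) (by positivity)
  have h2 := (Metric.tendsto_nhds.1 hya) (ε / 3) (by positivity)
  filter_upwards [h1, h2] with n a1 a2 p hp
  rw [Real.dist_eq] at a1 a2
  rw [sub_zero] at a2
  have a3 := (le_abs_self _).trans_lt a2
  obtain ⟨s1, s2⟩ := short_bds S ht hya (n := n) hp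
  have e : rescale (1 / 2) (t n) 0 ((NN a (.short σ τ)).c (t n)) p - (sg σ : ℂ) * b =
      ((sg σ * (a.X 0 (t n) p / rr (1 / 2) (t n) - b) : ℝ) : ℂ) +
      ((sg τ * (a.Y 0 (t n) p / rr (1 / 2) (t n)) : ℝ) : ℂ) * Complex.I := by
    rw [resc_eq S (H.mem (ht n))]
    show ((sg σ * a.X 0 (t n) p / rr (1 / 2) (t n) : ℝ) : ℂ) +
      ((sg τ * a.Y 0 (t n) p / rr (1 / 2) (t n) : ℝ) : ℂ) * Complex.I - _ = _
    push_cast; ring
  rw [e]
  refine (norm_xy _ _).trans_lt ?_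
  rw [sg_abs, sg_abs]
  have e2 : a.X 0 (t n) p / rr (1 / 2) (t n) - b =
    (a.X 0 (t n) p / rr (1 / 2) (t n) - xa g (t n) / rr (1 / 2) (t n)) +
    (xa g (t n) / rr (1 / 2) (t n) - b) := by ring
  rw [e2]
  have := abs_add_le (a.X 0 (t n) p / rr (1 / 2) (t n) - xa g (t n) / rr (1 / 2) (t n))
    (xa g (t n) / rr (1 / 2) (t n) - b)
  linarith

include ht hxa hya in
lemma bar_conv : C1Conv (fun n => rescale (1 / 2) (t n) 0 ((NN a .bar).c (t n))) (seg (-b) b) := by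
  have H := hE S
  have z1 : (1:ℝ) ∈ Icc (0:ℝ) 1 := ⟨zero_le_one, le_refl _⟩
  have hβ : ∀ ε > 0, ∀ᶠ n in atTop, |a.X 0 (t n) 1 / rr (1 / 2) (t n) - b| < ε := by
    intro ε hε
    have h1 := (Metric.tendsto_nhds.1 hxa) (ε / 2) (by positivity)
    have h2 := (Metric.tendsto_nhds.1 hya) (ε / 2) (by positivity)
    filter_upwards [h1, h2] with n a1 a2
    rw [Real.dist_eq] at a1 a2
    rw [sub_zero] at a2
    have a3 := (le_abs_self _).trans_lt a2
    obtain ⟨s1, -⟩ := short_bds S ht hya (n := n) z1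
    have e2 : a.X 0 (t n) 1 / rr (1 / 2) (t n) - b =
      (a.X 0 (t n) 1 / rr (1 / 2) (t n) - xa g (t n) / rr (1 / 2) (t n)) +
      (xa g (t n) / rr (1 / 2) (t n) - b) := by ring
    rw [e2]
    have := abs_add_le (a.X 0 (t n) 1 / rr (1 / 2) (t n) - xa g (t n) / rr (1 / 2) (t n))
      (xa g (t n) / rr (1 / 2) (t n) - b)
    linarith
  refine c1conv_of (c' := fun n _ => ((2 * a.X 0 (t n) 1 / rr (1 / 2) (t n) : ℝ) : ℂ))
    (L' := fun _ => ((2 * b : ℝ) : ℂ)) (Eventually.of_forall (fun n p hp => ?_)) (fun p hp => ?_)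
    (fun ε hε => ?_) (fun ε hε => ?_)
  · refine (resc_deriv S (H.mem (ht n)) .bar hp).congr_deriv ?_
    show ((2 * a.X 0 (t n) 1 / rr (1 / 2) (t n) : ℝ) : ℂ) * uv 0 = _
    rw [uv, Real.cos_zero, Real.sin_zero]
    push_cast; ring
  · have h1 : HasDerivAt (fun p : ℝ => (p : ℂ)) 1 p := Complex.ofRealCLM.hasDerivAt
    have h2 : HasDerivAt (seg (-b) b) (1 * ((b : ℂ) - (-b))) p := (h1.mul_const _).const_add _
    refine h2.hasDerivWithinAt.congr_deriv ?_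
    push_cast; ring
  · filter_upwards [hβ ε hε] with n hn p hp
    have e : rescale (1 / 2) (t n) 0 ((NN a .bar).c (t n)) p - seg (-b) b p =
      (((2 * p - 1) * (a.X 0 (t n) 1 / rr (1 / 2) (t n) - b) : ℝ) : ℂ) := by
      rw [resc_eq S (H.mem (ht n)), seg]
      show (((2 * p - 1) * a.X 0 (t n) 1 / rr (1 / 2) (t n) : ℝ) : ℂ) +
        (((0:ℝ) / rr (1 / 2) (t n) : ℝ) : ℂ) * Complex.I - _ = _
      push_cast; ring
    rw [e, Complex.norm_real, Real.norm_eq_abs, abs_mul]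
    have : |2 * p - 1| ≤ 1 := abs_le.2 ⟨by linarith [hp.1], by linarith [hp.2]⟩
    nlinarith [abs_nonneg (a.X 0 (t n) 1 / rr (1 / 2) (t n) - b)]
  · filter_upwards [hβ (ε / 2) (by positivity)] with n hn p hp
    have e : ((2 * a.X 0 (t n) 1 / rr (1 / 2) (t n) : ℝ) : ℂ) - ((2 * b : ℝ) : ℂ) =
      ((2 * (a.X 0 (t n) 1 / rr (1 / 2) (t n) - b) : ℝ) : ℂ) := by push_cast; ring
    rw [e, Complex.norm_real, Real.norm_eq_abs, abs_mul, abs_two]
    linarith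

section
variable (hlh : Tendsto (fun n => lh a (t n)) atTop (𝓝 l)) (hX : UT atTop (fun n => xh a (t n)) X)
  (hY : UT atTop (fun n => yh a (t n)) Y) (hΘ : UT atTop (fun n => th a (t n)) Θ)
  (dX : ∀ p ∈ Icc (0:ℝ) 1, HasDerivWithinAt X (l * Real.cos (Θ p)) (Icc 0 1) p)
  (dY : ∀ p ∈ Icc (0:ℝ) 1, HasDerivWithinAt Y (l * Real.sin (Θ p)) (Icc 0 1) p)
  (dΘ : ∀ p ∈ Icc (0:ℝ) 1, HasDerivWithinAt Θ (-(l * nn X Y Θ p)) (Icc 0 1) p)
  (hΘ1 : Θ 1 = π)

include ht hl hlh hX hY hΘ dX dY dΘ hΘ1 in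
lemma cap_conv (τ : Bool) : C1Conv (fun n => rescale (1 / 2) (t n) 0 ((NN a (.cap τ)).c (t n)))
    (fun p => cond τ ((Pinf l X Y Θ).c 0 p) (starRingEnd ℂ ((Pinf l X Y Θ).c 0 p))) := by
  have H := hE S
  have hl0 : 0 < l := by linarith
  have P := Pinf_sl hl0 dX dY dΘ hΘ1
  have uX := UT_fo hX
  have uY := UT_fe hY
  have uΘ := UT_fo hΘ
  have eL : (fun p => cond τ ((Pinf l X Y Θ).c 0 p) (starRingEnd ℂ ((Pinf l X Y Θ).c 0 p))) =
      fun p => ((fo X p : ℝ) : ℂ) + ((sg τ * fe Y p : ℝ) : ℂ) * Complex.I := by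
    funext p
    have e0 : (Pinf l X Y Θ).c 0 p = ((fo X p : ℝ) : ℂ) + ((fe Y p : ℝ) : ℂ) * Complex.I := rfl
    cases τ
    · rw [e0]
      simp [sg]
    · rw [e0]
      simp [sg]
  rw [eL]
  have eAl : ∀ n p, a.cAl (t n) p = π + fo (th a (t n)) p := by
    intro n p
    rw [AFd.cAl, AFd.cTh, fo, fo, th, th, AFd.al, AFd.al]; ring
  refine c1conv_of (c' := fun n p => ((2 * lh a (t n) * Real.cos (π + fo (th a (t n)) p) : ℝ) : ℂ) +
      ((sg τ * (2 * lh a (t n) * Real.sin (π + fo (th a (t n)) p)) : ℝ) : ℂ) * Complex.I)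
    (L' := fun p => ((2 * l * Real.cos (π + fo Θ p) : ℝ) : ℂ) +
      ((sg τ * (2 * l * Real.sin (π + fo Θ p)) : ℝ) : ℂ) * Complex.I)
    (Eventually.of_forall (fun n p hp => ?_)) (fun p hp => ?_)
    (fun ε hε => ?_) (fun ε hε => ?_)
  · refine (resc_deriv S (H.mem (ht n)) (.cap τ) hp).congr_deriv ?_
    show ((2 * a.L 1 (t n) / rr (1 / 2) (t n) : ℝ) : ℂ) *
      uv (cond true 0 π + sg true * sg τ * a.cAl (t n) p) = _
    rw [refl_uv, eAl, lh]
    have : sg true = 1 := rfl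
    rw [this]
    push_cast; ring
  · have d1 := (P.px p hp).ofReal_comp
    have d2 := ((P.py p hp).const_mul (sg τ)).ofReal_comp
    exact d1.add (d2.mul_const Complex.I)
  · filter_upwards [uX (ε / 2) (by positivity), uY (ε / 2) (by positivity)] with n a1 a2 p hp
    have e : rescale (1 / 2) (t n) 0 ((NN a (.cap τ)).c (t n)) p -
      (((fo X p : ℝ) : ℂ) + ((sg τ * fe Y p : ℝ) : ℂ) * Complex.I) =
      ((fo (xh a (t n)) p - fo X p : ℝ) : ℂ) + ((sg τ * (fe (yh a (t n)) p - fe Y p) : ℝ) : ℂ) *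
        Complex.I := by
      rw [resc_eq S (H.mem (ht n))]
      have e1 : (NP a (.cap τ)).x (t n) p / rr (1 / 2) (t n) = fo (xh a (t n)) p := by
        show sg true * fo (fun q => a.X 1 (t n) (a.pp (t n) q)) p / rr (1 / 2) (t n) = _
        have : sg true = 1 := rfl
        rw [this, fo, fo, xh, xh]; ring
      have e2 : (NP a (.cap τ)).y (t n) p / rr (1 / 2) (t n) = sg τ * fe (yh a (t n)) p := by
        show sg τ * fe (fun q => a.Y 1 (t n) (a.pp (t n) q)) p / rr (1 / 2) (t n) = _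
        rw [fe, fe, yh, yh, yh]; ring
      rw [e1, e2]
      push_cast; ring
    rw [e]
    refine (norm_xy _ _).trans_lt ?_
    rw [sg_abs]
    have := a1 p hp
    have := a2 p hp
    linarith
  · set δ := ε / (4 * (l + 2)) with hδ
    have hδ0 : 0 < δ := by positivity
    have h1 := (Metric.tendsto_nhds.1 hlh) δ hδ0
    filter_upwards [h1, uΘ δ hδ0] with n a1 a2 p hp
    rw [Real.dist_eq] at a1
    have a3 := a2 p hp
    set α := π + fo (th a (t n)) p with hα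
    set β := π + fo Θ p with hβ
    have hαβ : |α - β| < δ := by
      have : α - β = fo (th a (t n)) p - fo Θ p := by rw [hα, hβ]; ring
      rwa [this]
    have e : ((2 * lh a (t n) * Real.cos α : ℝ) : ℂ) +
      ((sg τ * (2 * lh a (t n) * Real.sin α) : ℝ) : ℂ) * Complex.I -
      (((2 * l * Real.cos β : ℝ) : ℂ) + ((sg τ * (2 * l * Real.sin β) : ℝ) : ℂ) * Complex.I) =
      ((2 * lh a (t n) * Real.cos α - 2 * l * Real.cos β : ℝ) : ℂ) +
      ((sg τ * (2 * lh a (t n) * Real.sin α - 2 * l * Real.sin β) : ℝ) : ℂ) * Complex.I := by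
      push_cast; ring
    rw [e]
    refine (norm_xy _ _).trans_lt ?_
    rw [sg_abs]
    have b1 : |2 * lh a (t n) * Real.cos α - 2 * l * Real.cos β| ≤ 2 * δ + 2 * l * δ := by
      have e1 : 2 * lh a (t n) * Real.cos α - 2 * l * Real.cos β =
        2 * (lh a (t n) - l) * Real.cos α + 2 * l * (Real.cos α - Real.cos β) := by ring
      rw [e1]
      refine (abs_add_le _ _).trans ?_
      rw [abs_mul, abs_mul, abs_mul, abs_mul, abs_two, abs_of_pos hl0]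
      have c1 := Real.abs_cos_le_one α
      have c2 := (sc_lip α β).2
      have c3 : 2 * |lh a (t n) - l| * |Real.cos α| ≤ 2 * δ * 1 :=
        mul_le_mul (by linarith) c1 (abs_nonneg _) (by positivity)
      have c4 : 2 * l * |Real.cos α - Real.cos β| ≤ 2 * l * δ :=
        mul_le_mul_of_nonneg_left (c2.trans hαβ.le) (by positivity)
      linarith
    have b2 : |2 * lh a (t n) * Real.sin α - 2 * l * Real.sin β| ≤ 2 * δ + 2 * l * δ := by
      have e1 : 2 * lh a (t n) * Real.sin α - 2 * l * Real.sin β =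
        2 * (lh a (t n) - l) * Real.sin α + 2 * l * (Real.sin α - Real.sin β) := by ring
      rw [e1]
      refine (abs_add_le _ _).trans ?_
      rw [abs_mul, abs_mul, abs_mul, abs_mul, abs_two, abs_of_pos hl0]
      have c1 := Real.abs_sin_le_one α
      have c2 := (sc_lip α β).1
      have c3 : 2 * |lh a (t n) - l| * |Real.sin α| ≤ 2 * δ * 1 :=
        mul_le_mul (by linarith) c1 (abs_nonneg _) (by positivity)
      have c4 : 2 * l * |Real.sin α - Real.sin β| ≤ 2 * l * δ :=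
        mul_le_mul_of_nonneg_left (c2.trans hαβ.le) (by positivity)
      linarith
    have e5 : 4 * (l + 2) * δ = ε := by rw [hδ]; field_simp
    nlinarith

end

end

end

end Run7.h661v
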