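import Pool.Agent.Run7.h661.V.Blow

/-!
# The limit cap
-/

open Set Filter Topology
open scoped Real ContDiff

namespace Run7.h661v

open Run7.h661x Run7.h661z
open Run7.h661y (cang cang0 cang1 cang2 HypE xa ya yM rr rr_pos tendsto_rr rr_sq)

lemma UT_fo {f : ℕ → ℝ → ℝ} {F : ℝ → ℝ} (h : UT atTop f F) :
    UT atTop (fun n => fo (f n)) (fo F) := by
  intro ε hε
  filter_upwards [h (ε / 2) (by positivity)] with n hn p hp
  have h1 := hn _ (m1_mem hp)
  have h2 := hn _ (m2_mem hp)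
  have e : fo (f n) p - fo F p = (f n (m1 p) - F (m1 p)) - (f n (m2 p) - F (m2 p)) := by
    rw [fo, fo]; ring
  rw [e]
  exact (abs_sub _ _).trans_lt (by linarith)

lemma UT_fe {f : ℕ → ℝ → ℝ} {F : ℝ → ℝ} (h : UT atTop f F) :
    UT atTop (fun n => fe (f n)) (fe F) := by
  intro ε hε
  filter_upwards [h (ε / 3) (by positivity)] with n hn p hp
  have h1 := hn _ (m1_mem hp)
  have h2 := hn _ (m2_mem hp)
  have h3 := hn 1 ⟨zero_le_one, le_refl _⟩
  have e : fe (f n) p - fe F p = (f n (m1 p) - F (m1 p)) + (f n (m2 p) - F (m2 p)) -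
    (f n 1 - F 1) := by rw [fe, fe]; ring
  rw [e]
  refine (abs_sub _ _).trans_lt ?_
  have := abs_add_le (f n (m1 p) - F (m1 p)) (f n (m2 p) - F (m2 p))
  linarith

/-- the limit cap as a (constant) moving curve -/
noncomputable def Pinf (l : ℝ) (X Y Θ : ℝ → ℝ) : Pd where
  ro := fun _ _ => 2 * l
  rp := fun _ _ => 0
  al := fun _ p => π + fo Θ p
  k := fun _ p => -fe (nn X Y Θ) p
  lm := fun _ _ => 0
  x := fun _ => fo X
  y := fun _ => fe Y

section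
variable {l b : ℝ} {X Y Θ : ℝ → ℝ} (hl : 0 < l)
  (dX : ∀ p ∈ Icc (0:ℝ) 1, HasDerivWithinAt X (l * Real.cos (Θ p)) (Icc 0 1) p)
  (dY : ∀ p ∈ Icc (0:ℝ) 1, HasDerivWithinAt Y (l * Real.sin (Θ p)) (Icc 0 1) p)
  (dΘ : ∀ p ∈ Icc (0:ℝ) 1, HasDerivWithinAt Θ (-(l * nn X Y Θ p)) (Icc 0 1) p)
  (hX0 : X 0 = b) (hX1 : X 1 = 0) (hY0 : Y 0 = 0) (hΘ0 : Θ 0 = 2 * π / 3) (hΘ1 : Θ 1 = π)
  (hs : ∀ p ∈ Icc (0:ℝ) 1, 2 * π / 3 ≤ Θ p ∧ Θ p ≤ π)
include dX dY dΘ

lemma nn_cont : ContinuousOn (nn X Y Θ) (Icc 0 1) := by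
  have h1 : ContinuousOn X (Icc 0 1) := fun q hq => (dX q hq).continuousWithinAt
  have h2 : ContinuousOn Y (Icc 0 1) := fun q hq => (dY q hq).continuousWithinAt
  have h3 : ContinuousOn Θ (Icc 0 1) := fun q hq => (dΘ q hq).continuousWithinAt
  exact ((h1.mul (Real.continuous_sin.comp_continuousOn h3)).neg).add
    (h2.mul (Real.continuous_cos.comp_continuousOn h3))

include hl hΘ1

lemma Pinf_sl : (Pinf l X Y Θ).Sl 0 := by
  refine ⟨fun p hp => ?_, fun p hp => ?_, fun p hp => ?_, fun p hp => hasDerivWithinAt_const _ _ _,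
    fun p hp => ?_, continuousOn_const, ?_⟩
  · show 0 < 2 * l
    positivity
  · show HasDerivWithinAt (fo X) (2 * l * Real.cos (π + fo Θ p)) (Icc 0 1) p
    refine (fo_deriv (F' := fun q => l * Real.cos (Θ q)) dX hp).congr_deriv ?_
    rcases le_total p (1 / 2) with h | h
    · rw [fe_left _ h, fo_left _ h, hΘ1, ← mul_assoc]
      congr 2; ring
    · rw [fe_right _ h, fo_right _ h, hΘ1, ← mul_assoc, ← Real.cos_two_pi_sub]
      congr 2; ring
  · show HasDerivWithinAt (fe Y) (2 * l * Real.sin (π + fo Θ p)) (Icc 0 1) p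
    refine (fe_deriv (F' := fun q => l * Real.sin (Θ q)) dY ?_ hp).congr_deriv ?_
    · simp only [hΘ1, Real.sin_pi, mul_zero]
    · rcases le_total p (1 / 2) with h | h
      · rw [fo_left _ h, fo_left _ h, hΘ1, Real.sin_pi, mul_zero, sub_zero, ← mul_assoc]
        congr 2; ring
      · rw [fo_right _ h, fo_right _ h, hΘ1, Real.sin_pi, mul_zero, zero_sub]
        have e2 : π + (π - Θ (2 - 2 * p)) = 2 * π - Θ (2 - 2 * p) := by ring
        rw [e2, Real.sin_two_pi_sub]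
        ring
  · show HasDerivWithinAt (fun p => π + fo Θ p) (2 * l * (-fe (nn X Y Θ) p)) (Icc 0 1) p
    refine ((fo_deriv (F' := fun q => -(l * nn X Y Θ q)) dΘ hp).const_add π).congr_deriv ?_
    rw [fe, fe]; ring
  · show ContinuousOn (fun p => -fe (nn X Y Θ) p) (Icc 0 1)
    have h := nn_cont dX dY dΘ
    have h1 : ContinuousOn (fun p => nn X Y Θ (m1 p)) (Icc 0 1) :=
      h.comp m1_cont.continuousOn (fun _ hp => m1_mem hp)
    have h2 : ContinuousOn (fun p => nn X Y Θ (m2 p)) (Icc 0 1) :=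
      h.comp m2_cont.continuousOn (fun _ hp => m2_mem hp)
    exact ((h1.add h2).sub continuousOn_const).neg

include hX1

/-- the shrinker equation -/
lemma Pinf_shrinker : IsShrinkerArc ((Pinf l X Y Θ).c 0) := by
  have S := Pinf_sl hl dX dY dΘ hΘ1
  refine ⟨S.cd2, fun p hp => S.ne hp, fun p hp => ?_⟩
  have hz : (Pinf l X Y Θ).c 0 p = (((fo X p * Real.cos (π + fo Θ p) +
      fe Y p * Real.sin (π + fo Θ p) : ℝ) : ℂ) +
      ((-(fo X p * Real.sin (π + fo Θ p)) + fe Y p * Real.cos (π + fo Θ p) : ℝ) : ℂ) *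
      Complex.I) * uv ((Pinf l X Y Θ).al 0 p) := by
    show (fo X p : ℂ) + fe Y p * Complex.I = _ * uv (π + fo Θ p)
    rw [uv]
    have hcs : ((Real.sin (π + fo Θ p) : ℝ) : ℂ) ^ 2 + ((Real.cos (π + fo Θ p) : ℝ) : ℂ) ^ 2 = 1 := by
      exact_mod_cast Real.sin_sq_add_cos_sq (π + fo Θ p)
    push_cast at hcs ⊢
    linear_combination (-(fo X p : ℂ) - fe Y p * Complex.I) * hcs -
      (-(fo X p : ℂ) * (Complex.sin (π + fo Θ p)) ^ 2 +
        (fe Y p : ℂ) * Complex.cos (π + fo Θ p) * Complex.sin (π + fo Θ p)) * Complex.I_sq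
  rw [S.curv_eq hp, S.normal_eq hp hz]
  show -fe (nn X Y Θ) p + _ = 0
  rcases le_total p (1 / 2) with h | h
  · rw [fe_left _ h, fo_left _ h, fo_left _ h, fe_left _ h, hΘ1, hX1]
    have e : π + (Θ (2 * p) - π) = Θ (2 * p) := by ring
    rw [e, nn]; ring
  · rw [fe_right _ h, fo_right _ h, fo_right _ h, fe_right _ h, hΘ1, hX1]
    have e : π + (π - Θ (2 - 2 * p)) = 2 * π - Θ (2 - 2 * p) := by ring
    rw [e, Real.sin_two_pi_sub, Real.cos_two_pi_sub, nn]; ring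

omit hΘ1 hl dX dY dΘ
include hX0 hY0

lemma Pinf_ends : (Pinf l X Y Θ).c 0 0 = b ∧ (Pinf l X Y Θ).c 0 1 = -b := by
  have q0 : (2:ℝ) * 0 = 0 := by norm_num
  have q1 : (2:ℝ) - 2 * 1 = 0 := by norm_num
  constructor
  · show (fo X 0 : ℂ) + fe Y 0 * Complex.I = _
    rw [fo_left _ (by norm_num), fe_left _ (by norm_num), q0, hX0, hX1, hY0]; simp
  · show (fo X 1 : ℂ) + fe Y 1 * Complex.I = _
    rw [fo_right _ (by norm_num), fe_right _ (by norm_num), q1, hX0, hX1, hY0]; simp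

omit hX0 hY0 hX1
include hs hΘ1

lemma Pinf_al {p : ℝ} (hp : p ∈ Icc (0:ℝ) 1) :
    2 * π / 3 ≤ π + fo Θ p ∧ π + fo Θ p ≤ 4 * π / 3 := by
  have hpi := Real.pi_pos
  rcases le_total p (1 / 2) with h | h
  · rw [fo_left _ h, hΘ1]
    have := hs (2 * p) ⟨by linarith [hp.1], by linarith⟩
    constructor <;> linarith
  · rw [fo_right _ h, hΘ1]
    have := hs (2 - 2 * p) ⟨by linarith [hp.2], by linarith⟩
    constructor <;> linarith

include hl dX dY dΘ

lemma Pinf_inj : InjOn ((Pinf l X Y Θ).c 0) (Icc 0 1) := by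
  have S := Pinf_sl hl dX dY dΘ hΘ1
  have hpi := Real.pi_pos
  have hm : StrictAntiOn ((Pinf l X Y Θ).x 0) (Icc 0 1) := by
    refine santi S.px (le_refl _) (le_refl _) (fun p hp => ?_)
    have h1 : 2 * π / 3 ≤ π + fo Θ p ∧ π + fo Θ p ≤ 4 * π / 3 := Pinf_al hΘ1 hs hp
    have h2 := S.pos p hp
    have h3 : Real.cos (π + fo Θ p) < 0 :=
      Real.cos_neg_of_pi_div_two_lt_of_lt (by linarith) (by linarith)
    show (Pinf l X Y Θ).ro 0 p * Real.cos (π + fo Θ p) < 0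
    nlinarith
  intro p hp q hq hz
  have hr := congrArg Complex.re hz
  rw [c_re, c_re] at hr
  exact hm.injOn hp hq hr

include hY0 hΘ0

lemma Pinf_upper {p : ℝ} (hp : p ∈ Ioo (0:ℝ) 1) : 0 < ((Pinf l X Y Θ).c 0 p).im := by
  have hpi := Real.pi_pos
  have z0 : (0:ℝ) ∈ Icc (0:ℝ) 1 := ⟨le_refl _, zero_le_one⟩
  rw [c_im]
  show 0 < fe Y p
  have hmono : MonotoneOn Y (Icc 0 1) := by
    refine wmono dY (le_refl _) (le_refl _) (fun q hq => ?_)
    have h1 := hs q hq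
    have : 0 ≤ Real.sin (Θ q) := Real.sin_nonneg_of_nonneg_of_le_pi (by linarith) h1.2
    positivity
  have key : ∀ q ∈ Ioc (0:ℝ) 1, 0 < Y q := by
    intro q hq
    by_contra hcon
    push Not at hcon
    have hqI : q ∈ Icc (0:ℝ) 1 := ⟨hq.1.le, hq.2⟩
    have hzero : ∀ s ∈ Icc (0:ℝ) q, Y s = 0 := by
      intro s hs'
      have hsI : s ∈ Icc (0:ℝ) 1 := ⟨hs'.1, hs'.2.trans hq.2⟩
      have h1 := hmono z0 hsI hs'.1
      have h2 := hmono hsI hqI hs'.2
      rw [hY0] at h1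
      linarith
    have d1 : HasDerivWithinAt Y (l * Real.sin (Θ 0)) (Icc 0 q) 0 :=
      (dY 0 z0).mono (Icc_subset_Icc le_rfl hq.2)
    have d2 : HasDerivWithinAt Y 0 (Icc 0 q) 0 :=
      (hasDerivWithinAt_const (0:ℝ) (Icc (0:ℝ) q) (0:ℝ)).congr hzero hY0
    have h3 := (uniqueDiffOn_Icc hq.1 0 ⟨le_refl _, hq.1.le⟩).eq_deriv _ d1 d2
    rw [hΘ0] at h3
    have h4 : 0 < Real.sin (2 * π / 3) := Real.sin_pos_of_pos_of_lt_pi (by linarith) (by linarith)
    have : 0 < l * Real.sin (2 * π / 3) := by positivity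
    linarith
  rcases le_total p (1 / 2) with h | h
  · rw [fe_left _ h]
    exact key _ ⟨by linarith [hp.1], by linarith⟩
  · rw [fe_right _ h]
    exact key _ ⟨by linarith [hp.2], by linarith⟩

omit hs

lemma uv_exp (θ : ℝ) : uv θ = Complex.exp ((θ : ℂ) * Complex.I) := by
  rw [uv, Complex.exp_mul_I, Complex.ofReal_cos, Complex.ofReal_sin]

lemma Pinf_angle : utan ((Pinf l X Y Θ).c 0) 0 = Complex.exp (2 * Real.pi / 3 * Complex.I) ∧
    utan ((Pinf l X Y Θ).c 0) 1 = Complex.exp (-(2 * Real.pi / 3) * Complex.I) := by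
  have S := Pinf_sl hl dX dY dΘ hΘ1
  have z0 : (0:ℝ) ∈ Icc (0:ℝ) 1 := ⟨le_refl _, zero_le_one⟩
  have z1 : (1:ℝ) ∈ Icc (0:ℝ) 1 := ⟨zero_le_one, le_refl _⟩
  have q0 : (2:ℝ) * 0 = 0 := by norm_num
  have q1 : (2:ℝ) - 2 * 1 = 0 := by norm_num
  constructor
  · rw [S.tan z0]
    show uv (π + fo Θ 0) = _
    rw [fo_left _ (by norm_num), q0, hΘ0, hΘ1]
    have e : π + (2 * π / 3 - π) = 2 * π / 3 := by ring
    rw [e, uv, Complex.exp_mul_I, Complex.ofReal_cos, Complex.ofReal_sin]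
    push_cast; rfl
  · rw [S.tan z1]
    show uv (π + fo Θ 1) = _
    rw [fo_right _ (by norm_num), q1, hΘ0, hΘ1]
    have e : π + (π - 2 * π / 3) = 2 * π - 2 * π / 3 := by ring
    rw [e, uv, Real.cos_two_pi_sub, Real.sin_two_pi_sub, Complex.exp_mul_I, Complex.cos_neg,
      Complex.sin_neg]
    push_cast; ring

end

end Run7.h661v
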