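import Pool.Agent.Run7.h661.V.Arms

/-!
# The main theorem
-/

open Set Filter Topology
open scoped Real ContDiff

namespace Run7.h661v

open Run7.h661x Run7.h661z
open Run7.h661y (cang cang0 cang1 cang2 HypE xa ya yM rr rr_pos tendsto_rr rr_sq)

theorem cell {g : Fin 3 → ℝ → ℝ → ℂ} {a : AFd} (S : St (1 / 2) a g) :
    ∃ (t : ℕ → ℝ) (b : ℝ) (C : ℝ → ℂ), (∀ n, t n ∈ Ico (1 / 4 : ℝ) (1 / 2)) ∧
      Tendsto t atTop (𝓝 (1 / 2)) ∧
      ConvergesToCell (fun n i => rescale (1 / 2) (t n) 0 ((NN a i).c (t n))) b C := by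
  obtain ⟨M, t, b, l, X, Y, Θ, hM, ht, hlim, hxt, hb, hl, hxa, hya, hlh, hX, hY, hΘ, dX, dY, dΘ,
    hΘ0⟩ := caps_lim S
  have H := hE S
  have hpi := Real.pi_pos
  have htI : ∀ n, t n ∈ Ioo 0 (1 / 2 : ℝ) := fun n => H.mem (ht n)
  have z0 : (0:ℝ) ∈ Icc (0:ℝ) 1 := ⟨le_refl _, zero_le_one⟩
  have z1 : (1:ℝ) ∈ Icc (0:ℝ) 1 := ⟨zero_le_one, le_refl _⟩
  have hl0 : 0 < l := by linarith
  have hX0 : X 0 = b := by
    refine tendsto_nhds_unique (UT.at hX z0) (hxa.congr (fun n => ?_))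
    rw [xh, AFd.pp, Pf_zero, (S.junc_eq (htI n) 1).1]
  have hY0 : Y 0 = 0 := by
    refine tendsto_nhds_unique (UT.at hY z0) (hya.congr (fun n => ?_))
    rw [yh, AFd.pp, Pf_zero, (S.junc_eq (htI n) 1).2]
  have hX1 : X 1 = 0 := by
    refine tendsto_nhds_unique (UT.at hX z1) (tendsto_const_nhds.congr (fun n => ?_))
    have : a.X 1 (t n) 1 = 0 := by rw [AFd.X]; ring
    rw [xh, S.A.pp_one (htI n), this, zero_div]
  have hΘ1 : Θ 1 = π := by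
    refine tendsto_nhds_unique (UT.at hΘ z1) (tendsto_const_nhds.congr (fun n => ?_))
    rw [th, S.A.al_pp_one (htI n)]
  have hs : ∀ p ∈ Icc (0:ℝ) 1, 2 * π / 3 ≤ Θ p ∧ Θ p ≤ π := by
    intro p hp
    have key : ∀ n, 2 * π / 3 ≤ th a (t n) p ∧ th a (t n) p ≤ π := by
      intro n
      have := S.sec 1 (t n) (htI n) _ (S.A.pp_mem (htI n) hp)
      rw [th, AFd.al, cang1]
      constructor <;> linarith
    exact ⟨ge_of_tendsto (UT.at hΘ hp) (Eventually.of_forall (fun n => (key n).1)),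
      le_of_tendsto (UT.at hΘ hp) (Eventually.of_forall (fun n => (key n).2))⟩
  refine ⟨t, b, (Pinf l X Y Θ).c 0, fun n => ⟨(ht n).1, (ht n).2⟩, hlim, by linarith,
    Pinf_shrinker hl0 dX dY dΘ hX1 hΘ1, Pinf_inj hl0 dX dY dΘ hΘ1 hs,
    Pinf_ends hX0 hX1 hY0, fun p hp => Pinf_upper hl0 dX dY dΘ hY0 hΘ0 hΘ1 hs hp,
    Pinf_angle hl0 dX dY dΘ hY0 hΘ0 hΘ1, bar_conv S ht hxa hya,
    fun τ => cap_conv S ht hl hlh hX hY hΘ dX dY dΘ hΘ1 τ,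
    fun σ τ => short_conv S ht hxa hya σ τ,
    fun σ τ => arm_ray S hM ht hlim hxt hb hxa hya σ τ⟩

/-- The main theorem. -/
theorem main : ∃ (r T : ℝ) (γ : Arc → ℝ → ℝ → ℂ), 0 < r ∧ 0 < T ∧
    IsNetworkFlow (Metric.ball (0:ℂ) r) T γ ∧ IsSingularTime (Metric.ball (0:ℂ) r) T γ ∧
    ∃ (t : ℕ → ℝ) (b : ℝ) (C : ℝ → ℂ), (∀ n, t n ∈ Ioo 0 T) ∧ Tendsto t atTop (𝓝 T) ∧
      ConvergesToCell (fun n i => rescale T (t n) 0 (γ i (t n))) b C := by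
  obtain ⟨g, S⟩ := exists_flow
  obtain ⟨t, b, C, ht, hlim, hc⟩ := cell S
  exact ⟨rB, 1 / 2, fun i => (NN AA i).c, rB_pos hh_pos, by norm_num, NN_flow S, NN_singular S,
    t, b, C, fun n => ⟨by linarith [(ht n).1], (ht n).2⟩, hlim, hc⟩

end Run7.h661v
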