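import Pool.Agent.Run7.h661.X.Curve

/-!
# Huisken's monotonicity formula
-/

open Set Filter Topology
open scoped Real ContDiff

namespace Run7.h661v

open Run7.h661x
open Run7.h661y (cang cang0 cang1 cang2 trig23 trigm23)

/-- data of a moving edge -/
structure Ee where
  ro : ℝ → ℝ → ℝ
  rod : ℝ → ℝ → ℝ
  al : ℝ → ℝ → ℝ
  k : ℝ → ℝ → ℝ
  lm : ℝ → ℝ → ℝ
  x : ℝ → ℝ → ℝ
  y : ℝ → ℝ → ℝ

/-- continuity on the strip -/
def CS (T : ℝ) (F : ℝ → ℝ → ℝ) : Prop := ContinuousOn (fun q : ℝ × ℝ => F q.1 q.2)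
  (Ioo 0 T ×ˢ Icc (0:ℝ) 1)

structure Eg (T : ℝ) (e : Ee) : Prop where
  cro : CS T e.ro
  crod : CS T e.rod
  cal : CS T e.al
  ck : CS T e.k
  clm : CS T e.lm
  cx : CS T e.x
  cy : CS T e.y
  px : ∀ t ∈ Ioo 0 T, ∀ p ∈ Icc (0:ℝ) 1,
    HasDerivWithinAt (e.x t) (e.ro t p * Real.cos (e.al t p)) (Icc 0 1) p
  py : ∀ t ∈ Ioo 0 T, ∀ p ∈ Icc (0:ℝ) 1,
    HasDerivWithinAt (e.y t) (e.ro t p * Real.sin (e.al t p)) (Icc 0 1) p
  pal : ∀ t ∈ Ioo 0 T, ∀ p ∈ Icc (0:ℝ) 1,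
    HasDerivWithinAt (e.al t) (e.ro t p * e.k t p) (Icc 0 1) p
  plm : ∀ t ∈ Ioo 0 T, ∀ p ∈ Icc (0:ℝ) 1,
    HasDerivWithinAt (e.lm t) (e.rod t p + e.k t p ^ 2 * e.ro t p) (Icc 0 1) p
  tx : ∀ t ∈ Ioo 0 T, ∀ p ∈ Icc (0:ℝ) 1, HasDerivAt (fun s => e.x s p)
    (e.lm t p * Real.cos (e.al t p) - e.k t p * Real.sin (e.al t p)) t
  ty : ∀ t ∈ Ioo 0 T, ∀ p ∈ Icc (0:ℝ) 1, HasDerivAt (fun s => e.y s p)
    (e.lm t p * Real.sin (e.al t p) + e.k t p * Real.cos (e.al t p)) t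
  tro : ∀ t ∈ Ioo 0 T, ∀ p ∈ Icc (0:ℝ) 1, HasDerivAt (fun s => e.ro s p) (e.rod t p) t

/-- the backward heat kernel (up to a constant) -/
noncomputable def Fg (t x y : ℝ) : ℝ :=
  (√(1 - 2 * t))⁻¹ * Real.exp (-(x ^ 2 + y ^ 2) / (2 * (1 - 2 * t)))

lemma Fg_pos {t : ℝ} (ht : t < 1 / 2) (x y : ℝ) : 0 < Fg t x y := by
  have : 0 < √(1 - 2 * t) := Real.sqrt_pos.2 (by linarith)
  rw [Fg]; positivity

lemma Fg_t {t : ℝ} (ht : t < 1 / 2) {x y : ℝ → ℝ} {x' y' : ℝ} (hx : HasDerivAt x x' t)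
    (hy : HasDerivAt y y' t) : HasDerivAt (fun s => Fg s (x s) (y s))
    (Fg t (x t) (y t) * (1 / (1 - 2 * t) - (x t * x' + y t * y') / (1 - 2 * t) -
      (x t ^ 2 + y t ^ 2) / (1 - 2 * t) ^ 2)) t := by
  have hu : 0 < 1 - 2 * t := by linarith
  have du : HasDerivAt (fun s : ℝ => 1 - 2 * s) (-2) t :=
    (((hasDerivAt_id' t).const_mul (2:ℝ)).const_sub 1).congr_deriv (by ring)
  have hs : 0 < √(1 - 2 * t) := Real.sqrt_pos.2 hu
  have hs2 : √(1 - 2 * t) * √(1 - 2 * t) = 1 - 2 * t := Real.mul_self_sqrt hu.le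
  have d1 := (du.sqrt hu.ne').inv hs.ne'
  have d2 := ((((hx.pow 2).add (hy.pow 2)).neg.div (du.const_mul 2) (by positivity)).exp)
  have d3 := d1.mul d2
  refine HasDerivAt.congr_deriv (f := fun s => Fg s (x s) (y s)) d3 ?_
  simp only [Pi.inv_apply, Pi.div_apply, Pi.neg_apply, Pi.add_apply, Pi.pow_apply,
    Nat.cast_ofNat, Nat.add_one_sub_one, pow_one]
  rw [Fg]
  have e1 : √(1 - 2 * t) ^ 2 = 1 - 2 * t := by rw [sq]; exact hs2
  have e2 : -(-2 / (2 * √(1 - 2 * t))) / √(1 - 2 * t) ^ 2 = (√(1 - 2 * t))⁻¹ * (1 / (1 - 2 * t)) := by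
    rw [e1]; field_simp
  rw [e2]
  field_simp
  ring

lemma Fg_p (t : ℝ) (ht : t < 1 / 2) {x y : ℝ → ℝ} {x' y' p : ℝ}
    (hx : HasDerivWithinAt x x' (Icc 0 1) p) (hy : HasDerivWithinAt y y' (Icc 0 1) p) :
    HasDerivWithinAt (fun q => Fg t (x q) (y q))
    (Fg t (x p) (y p) * (-(x p * x' + y p * y') / (1 - 2 * t))) (Icc 0 1) p := by
  have hu : 0 < 1 - 2 * t := by linarith
  have d2 := ((((hx.pow 2).add (hy.pow 2)).neg.div_const (2 * (1 - 2 * t))).exp).const_mul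
    (√(1 - 2 * t))⁻¹
  refine HasDerivWithinAt.congr_deriv (f := fun q => Fg t (x q) (y q)) d2 ?_
  simp only [Pi.neg_apply, Pi.add_apply, Pi.pow_apply, Nat.cast_ofNat, Nat.add_one_sub_one, pow_one]
  rw [Fg]
  field_simp

/-- tangential and normal component of the position -/
noncomputable def Ee.s (e : Ee) (t p : ℝ) : ℝ :=
  e.x t p * Real.cos (e.al t p) + e.y t p * Real.sin (e.al t p)
noncomputable def Ee.n (e : Ee) (t p : ℝ) : ℝ :=
  -(e.x t p * Real.sin (e.al t p)) + e.y t p * Real.cos (e.al t p)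
noncomputable def Ee.F (e : Ee) (t p : ℝ) : ℝ := Fg t (e.x t p) (e.y t p)
/-- the weighted length -/
noncomputable def Ee.Th (e : Ee) (t : ℝ) : ℝ := PI clamp (fun t p => e.F t p * e.ro t p) t 1
/-- the dissipation -/
noncomputable def Ee.G (e : Ee) (t : ℝ) : ℝ :=
  PI clamp (fun t p => e.F t p * (e.k t p + e.n t p / (1 - 2 * t)) ^ 2 * e.ro t p) t 1
/-- the boundary term -/
noncomputable def Ee.B (e : Ee) (t p : ℝ) : ℝ := e.F t p * (e.lm t p + e.s t p / (1 - 2 * t))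

section
variable {T : ℝ} {e : Ee} (E : Eg T e) (hT : T ≤ 1 / 2)

lemma CS.add {F G : ℝ → ℝ → ℝ} (hF : CS T F) (hG : CS T G) : CS T (fun t p => F t p + G t p) :=
  ContinuousOn.add hF hG
lemma CS.sub {F G : ℝ → ℝ → ℝ} (hF : CS T F) (hG : CS T G) : CS T (fun t p => F t p - G t p) :=
  ContinuousOn.sub hF hG
lemma CS.mul {F G : ℝ → ℝ → ℝ} (hF : CS T F) (hG : CS T G) : CS T (fun t p => F t p * G t p) :=
  ContinuousOn.mul hF hG
lemma CS.cos {F : ℝ → ℝ → ℝ} (hF : CS T F) : CS T (fun t p => Real.cos (F t p)) :=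
  Real.continuous_cos.comp_continuousOn hF
lemma CS.sin {F : ℝ → ℝ → ℝ} (hF : CS T F) : CS T (fun t p => Real.sin (F t p)) :=
  Real.continuous_sin.comp_continuousOn hF
lemma CS.of_t {f : ℝ → ℝ} (hf : ContinuousOn f (Ioo 0 T)) : CS T (fun t _ => f t) :=
  hf.comp continuousOn_fst (fun _ hq => hq.1)

include hT in
lemma CS.ui : CS T (fun t _ => (1 - 2 * t)⁻¹) :=
  CS.of_t (ContinuousOn.inv₀ (by fun_prop) (fun t ht => by
    have := ht.2
    have : 0 < 1 - 2 * t := by linarith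
    exact this.ne'))

include hT in
lemma CS.Fg {x y : ℝ → ℝ → ℝ} (hx : CS T x) (hy : CS T y) :
    CS T (fun t p => Run7.h661v.Fg t (x t p) (y t p)) := by
  have h1 : CS T (fun t _ => (√(1 - 2 * t))⁻¹) := CS.of_t (ContinuousOn.inv₀ (by fun_prop)
    (fun t ht => by
      have := ht.2
      have : 0 < √(1 - 2 * t) := Real.sqrt_pos.2 (by linarith)
      exact this.ne'))
  have h2 := CS.ui hT
  have h3 : CS T (fun t p => -(x t p * x t p + y t p * y t p) * ((1 - 2 * t)⁻¹ * (1 / 2))) :=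
    (ContinuousOn.neg ((hx.mul hx).add (hy.mul hy))).mul (CS.mul (G := fun _ _ => 1 / 2) h2 continuousOn_const)
  have h4 : CS T (fun t p => Real.exp (-(x t p * x t p + y t p * y t p) *
    ((1 - 2 * t)⁻¹ * (1 / 2)))) := Real.continuous_exp.comp_continuousOn h3
  refine (h1.mul h4).congr (fun q hq => ?_)
  show Run7.h661v.Fg _ _ _ = _
  rw [Run7.h661v.Fg]
  congr 2
  have := hq.1.2
  have : 0 < 1 - 2 * q.1 := by linarith
  field_simp

lemma PI_add {F G : ℝ → ℝ → ℝ} (hF : CS T F) (hG : CS T G) {t : ℝ} (ht : t ∈ Ioo 0 T) :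
    PI clamp (fun t p => F t p + G t p) t 1 = PI clamp F t 1 + PI clamp G t 1 :=
  intervalIntegral.integral_add ((slice_cont dom_I hF ht).intervalIntegrable _ _)
    ((slice_cont dom_I hG ht).intervalIntegrable _ _)

lemma PI_congr {F G : ℝ → ℝ → ℝ} {t : ℝ} (h : ∀ p ∈ Icc (0:ℝ) 1, F t p = G t p) :
    PI clamp F t 1 = PI clamp G t 1 := by
  unfold PI
  congr 1
  funext q
  exact h _ (clamp_mem q)

include E

lemma Eg.cs : CS T e.s := (E.cx.mul E.cal.cos).add (E.cy.mul E.cal.sin)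
lemma Eg.cn : CS T e.n :=
  (ContinuousOn.neg (E.cx.mul E.cal.sin)).add (E.cy.mul E.cal.cos)
include hT

lemma Eg.cF : CS T e.F := CS.Fg hT E.cx E.cy

lemma Eg.pB {t : ℝ} (ht : t ∈ Ioo 0 T) {p : ℝ} (hp : p ∈ Icc (0:ℝ) 1) :
    HasDerivWithinAt (e.B t) (e.F t p * (-(e.s t p * e.ro t p) / (1 - 2 * t)) *
      (e.lm t p + e.s t p / (1 - 2 * t)) + e.F t p * ((e.rod t p + e.k t p ^ 2 * e.ro t p) +
      e.ro t p * (1 + e.k t p * e.n t p) / (1 - 2 * t))) (Icc 0 1) p := by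
  have ht2 : t < 1 / 2 := ht.2.trans_le hT
  have dx := E.px t ht p hp
  have dy := E.py t ht p hp
  have da := E.pal t ht p hp
  have dF := Fg_p t ht2 dx dy
  have ds := (dx.mul da.cos).add (dy.mul da.sin)
  have h := dF.mul ((E.plm t ht p hp).add (ds.div_const (1 - 2 * t)))
  refine HasDerivWithinAt.congr_deriv (f := e.B t) h ?_
  have hu : (1 - 2 * t) ≠ 0 := by
    have : 0 < 1 - 2 * t := by linarith
    exact this.ne'
  have hcs := Real.sin_sq_add_cos_sq (e.al t p)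
  simp only [Ee.F, Ee.s, Ee.n]
  simp only [Pi.add_apply, Pi.mul_apply]
  field_simp
  linear_combination (Fg t (e.x t p) (e.y t p) * e.ro t p * (1 - 2 * t)) * hcs

/-- Huisken's monotonicity formula for one edge -/
theorem Eg.mono {t : ℝ} (ht : t ∈ Ioo 0 T) :
    HasDerivAt e.Th (-e.G t + (e.B t 1 - e.B t 0)) t := by
  have hF := E.cF hT
  have hs := E.cs
  have hn := E.cn
  have hui := CS.ui (T := T) hT
  have hu0 : ∀ t ∈ Ioo 0 T, (1 - 2 * t) ≠ 0 := fun t ht => by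
    have := ht.2
    have : 0 < 1 - 2 * t := by linarith
    exact this.ne'
  -- the dissipation density
  have hG : CS T (fun t p => -(e.F t p * (e.k t p + e.n t p / (1 - 2 * t)) ^ 2 * e.ro t p)) := by
    have h1 : CS T (fun t p => e.k t p + e.n t p * (1 - 2 * t)⁻¹) := E.ck.add (hn.mul hui)
    have h2 := ContinuousOn.neg ((hF.mul (h1.mul h1)).mul E.cro)
    refine h2.congr (fun q hq => ?_)
    show _ = -(_ * (_ * _) * _)
    simp only [div_eq_mul_inv]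
    ring
  have hB : CS T (fun t p => e.F t p * (-(e.s t p * e.ro t p) / (1 - 2 * t)) *
      (e.lm t p + e.s t p / (1 - 2 * t)) + e.F t p * ((e.rod t p + e.k t p ^ 2 * e.ro t p) +
      e.ro t p * (1 + e.k t p * e.n t p) / (1 - 2 * t))) := by
    have h1 : CS T (fun t p => e.F t p * (-(e.s t p * e.ro t p) * (1 - 2 * t)⁻¹)) :=
      hF.mul ((ContinuousOn.neg (hs.mul E.cro)).mul hui)
    have h2 : CS T (fun t p => e.lm t p + e.s t p * (1 - 2 * t)⁻¹) := E.clm.add (hs.mul hui)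
    have h3 : CS T (fun t p => (e.rod t p + (e.k t p * e.k t p) * e.ro t p) +
      e.ro t p * (1 + e.k t p * e.n t p) * (1 - 2 * t)⁻¹) :=
      (E.crod.add ((E.ck.mul E.ck).mul E.cro)).add ((E.cro.mul (CS.add (F := fun _ _ => 1)
        continuousOn_const (E.ck.mul hn))).mul hui)
    have h4 := (h1.mul h2).add (hF.mul h3)
    refine h4.congr (fun q hq => ?_)
    simp only [div_eq_mul_inv]
    ring
  have hFt : CS T (fun t p => -(e.F t p * (e.k t p + e.n t p / (1 - 2 * t)) ^ 2 * e.ro t p) +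
      (e.F t p * (-(e.s t p * e.ro t p) / (1 - 2 * t)) *
      (e.lm t p + e.s t p / (1 - 2 * t)) + e.F t p * ((e.rod t p + e.k t p ^ 2 * e.ro t p) +
      e.ro t p * (1 + e.k t p * e.n t p) / (1 - 2 * t)))) := hG.add hB
  have h1 := PI_dt dom_I (F := fun t p => e.F t p * e.ro t p) (F' := fun t p =>
    -(e.F t p * (e.k t p + e.n t p / (1 - 2 * t)) ^ 2 * e.ro t p) +
      (e.F t p * (-(e.s t p * e.ro t p) / (1 - 2 * t)) *
      (e.lm t p + e.s t p / (1 - 2 * t)) + e.F t p * ((e.rod t p + e.k t p ^ 2 * e.ro t p) +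
      e.ro t p * (1 + e.k t p * e.n t p) / (1 - 2 * t)))) (hF.mul E.cro) hFt
    (fun t ht p hp => by
      have ht2 : t < 1 / 2 := ht.2.trans_le hT
      have d := (Fg_t ht2 (E.tx t ht p hp) (E.ty t ht p hp)).mul (E.tro t ht p hp)
      refine HasDerivAt.congr_deriv (f := fun t => e.F t p * e.ro t p) d ?_
      have hu := hu0 t ht
      have hcs := Real.sin_sq_add_cos_sq (e.al t p)
      simp only [Ee.F, Ee.s, Ee.n]
      field_simp
      linear_combination (Fg t (e.x t p) (e.y t p) * e.ro t p * (e.x t p ^ 2 + e.y t p ^ 2)) * hcs)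
    ht 1
  refine HasDerivAt.congr_deriv (f := e.Th) h1 ?_
  rw [PI_add hG hB ht]
  congr 1
  · rw [Ee.G]
    unfold PI
    rw [← intervalIntegral.integral_neg]
  · have := PI_eq dom_I ht (F := e.B) (G := fun t p =>
      e.F t p * (-(e.s t p * e.ro t p) / (1 - 2 * t)) *
      (e.lm t p + e.s t p / (1 - 2 * t)) + e.F t p * ((e.rod t p + e.k t p ^ 2 * e.ro t p) +
      e.ro t p * (1 + e.k t p * e.n t p) / (1 - 2 * t))) (fun p hp => E.pB hT ht hp) hB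
      (⟨zero_le_one, le_refl _⟩ : (1:ℝ) ∈ Icc (0:ℝ) 1)
    linarith

omit E in
lemma Ee.Th_nonneg (hro : ∀ t ∈ Ioo 0 T, ∀ p ∈ Icc (0:ℝ) 1, 0 ≤ e.ro t p) {t : ℝ}
    (ht : t ∈ Ioo 0 T) : 0 ≤ e.Th t := by
  have ht2 : t < 1 / 2 := ht.2.trans_le hT
  refine intervalIntegral.integral_nonneg zero_le_one (fun q _ => ?_)
  exact mul_nonneg (Fg_pos ht2 _ _).le (hro t ht _ (clamp_mem q))

omit E in
lemma Ee.G_nonneg (hro : ∀ t ∈ Ioo 0 T, ∀ p ∈ Icc (0:ℝ) 1, 0 ≤ e.ro t p) {t : ℝ}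
    (ht : t ∈ Ioo 0 T) : 0 ≤ e.G t := by
  have ht2 : t < 1 / 2 := ht.2.trans_le hT
  refine intervalIntegral.integral_nonneg zero_le_one (fun q _ => ?_)
  exact mul_nonneg (mul_nonneg (Fg_pos ht2 _ _).le (sq_nonneg _)) (hro t ht _ (clamp_mem q))

end

end Run7.h661v
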