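import Pool.Agent.Run7.h661.V.Mono
import Pool.Agent.Run7.h661.X.Start

/-!
# Huisken's monotonicity formula for the quarter of the network
-/

open Set Filter Topology
open scoped Real ContDiff

namespace Run7.h661v

open Run7.h661x
open Run7.h661y (cang cang0 cang1 cang2 trig23 trigm23)

noncomputable def edE (a : AFd) (i : Fin 3) : Ee where
  ro := a.ro i
  rod := a.rod i
  al := a.al i
  k := a.k i
  lm := a.lm i
  x := a.X i
  y := a.Y i

noncomputable def baE (a : AFd) : Ee where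
  ro := fun t _ => a.X 0 t 1
  rod := fun t _ => a.ux 0 t 1
  al := fun _ _ => 0
  k := fun _ _ => 0
  lm := fun t p => p * a.ux 0 t 1
  x := fun t p => p * a.X 0 t 1
  y := fun _ _ => 0

/-- the weighted length of the quarter -/
noncomputable def Tht (a : AFd) (t : ℝ) : ℝ :=
  (edE a 0).Th t + (edE a 1).Th t + (edE a 2).Th t + 1 / 2 * (baE a).Th t
/-- the dissipation -/
noncomputable def Gt (a : AFd) (t : ℝ) : ℝ :=
  (edE a 0).G t + (edE a 1).G t + (edE a 2).G t + 1 / 2 * (baE a).G t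

section
variable {T : ℝ} {a : AFd} (A : AF T a)
include A

lemma eg_ed (i : Fin 3) : Eg T (edE a i) := by
  have h := A.reg 0 i 0
  refine ⟨(A.rro i 0 0).ct.cont, (A.rrod i 0 0).ct.cont, ((RG.const (cang i) 0 0).add h.1).ct.cont,
    (A.rk i 0 0).ct.cont, h.2.2.ct.cont, (A.rX i 0 0).1.ct.cont, (A.rX i 0 0).2.ct.cont,
    fun t ht p hp => A.pX i ht hp, fun t ht p hp => A.pY i ht hp, fun t ht p hp => ?_,
    fun t ht p hp => ?_, fun t ht p hp => A.tX i ht hp, fun t ht p hp => A.tY i ht hp,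
    fun t ht p hp => A.tro i ht p⟩
  · refine (A.pal i ht hp).congr_deriv ?_
    rw [A.D_eq i ht hp, mul_comm]; rfl
  · refine (A.plm i t ht p hp).congr_deriv ?_
    have := (A.pos i t ht p hp).ne'
    show _ = a.rod i t p + a.k i t p ^ 2 * a.ro i t p
    rw [A.D_eq i ht hp]; field_simp

lemma rux (i : Fin 3) (m n : ℕ) : RG T (Icc 0 1) m n (a.ux i) := by
  have hc := ((RG.const (cang i) m n).add (A.reg n i m).1).cossin
  exact (((A.reg n i m).2.2.mul hc.1).sub ((A.rk i m n).mul hc.2)).congr (fun _ _ _ _ => rfl)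

lemma eg_ba : Eg T (baE a) := by
  have z1 : (1:ℝ) ∈ Icc (0:ℝ) 1 := ⟨zero_le_one, le_refl _⟩
  have hX : RG T (Icc 0 1) 0 0 (fun t _ => a.X 0 t 1) := RG.of_t ((A.rX 0 0 0).1.ct.eval z1)
  have hu : RG T (Icc 0 1) 0 0 (fun t _ => a.ux 0 t 1) := RG.of_t ((rux A 0 0 0).ct.eval z1)
  refine ⟨hX.ct.cont, hu.ct.cont, continuousOn_const, continuousOn_const, (RG.id.mul hu).ct.cont,
    (RG.id.mul hX).ct.cont, continuousOn_const, fun t ht p hp => ?_, fun t ht p hp => ?_,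
    fun t ht p hp => ?_, fun t ht p hp => ?_, fun t ht p hp => ?_, fun t ht p hp => ?_,
    fun t ht p hp => A.tX 0 ht z1⟩
  · refine (((hasDerivAt_id' p).mul_const (a.X 0 t 1)).hasDerivWithinAt).congr_deriv ?_
    show _ = a.X 0 t 1 * Real.cos 0
    rw [Real.cos_zero]; ring
  · refine (hasDerivWithinAt_const p (Icc (0:ℝ) 1) (0:ℝ)).congr_deriv ?_
    show _ = a.X 0 t 1 * Real.sin 0
    rw [Real.sin_zero]; ring
  · refine (hasDerivWithinAt_const p (Icc (0:ℝ) 1) (0:ℝ)).congr_deriv ?_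
    show _ = a.X 0 t 1 * 0
    ring
  · refine (((hasDerivAt_id' p).mul_const (a.ux 0 t 1)).hasDerivWithinAt).congr_deriv ?_
    show _ = a.ux 0 t 1 + 0 ^ 2 * a.X 0 t 1
    ring
  · refine ((A.tX 0 ht z1).const_mul p).congr_deriv ?_
    show _ = p * a.ux 0 t 1 * Real.cos 0 - 0 * Real.sin 0
    rw [Real.cos_zero]; ring
  · refine (hasDerivAt_const t (0:ℝ)).congr_deriv ?_
    show _ = p * a.ux 0 t 1 * Real.sin 0 + 0 * Real.cos 0
    rw [Real.sin_zero]; ring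

end

section
variable {g : Fin 3 → ℝ → ℝ → ℂ} {a : AFd} {T1 : ℝ} (S : St T1 a g)
include S

/-- the boundary terms cancel -/
lemma bdry {t : ℝ} (ht : t ∈ Ioo 0 T1) :
    ((edE a 0).B t 1 - (edE a 0).B t 0) + ((edE a 1).B t 1 - (edE a 1).B t 0) +
      ((edE a 2).B t 1 - (edE a 2).B t 0) + 1 / 2 * ((baE a).B t 1 - (baE a).B t 0) =
      (edE a 2).B t 1 := by
  have A := S.A
  have ht2 : t < 1 / 2 := ht.2.trans_le S.le
  have hu : (1 - 2 * t) ≠ 0 := by
    have : 0 < 1 - 2 * t := by linarith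
    exact this.ne'
  have hs3 : √3 * √3 = 3 := Real.mul_self_sqrt (by norm_num)
  have i3 : 1 / √3 = √3 / 3 := by
    have : √3 ≠ 0 := by positivity
    field_simp; linarith
  have hX0 : ∀ i, a.X i t 0 = a.X 0 t 0 := fun i => by simp only [AFd.X, PI_zero]
  have hY0 : ∀ i, a.Y i t 0 = a.Y 0 t 0 := fun i => by simp only [AFd.Y, PI_zero]
  have hX1 : a.X 1 t 1 = 0 := by rw [AFd.X]; ring
  have hY1 : a.Y 0 t 1 = 0 := by rw [AFd.Y]; ring
  -- the junction
  have hk : ∀ i, a.D i t 0 * (a.L 0 t)⁻¹ = a.k i t 0 := fun i => by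
    rw [AFd.k]; simp [AFd.ro]
  have l0 : a.lm 0 t 0 = 1 / √3 * (a.k 1 t 0 - a.k 2 t 0) := by
    rw [A.jlm t ht 0, hk, hk]; rfl
  have l1 : a.lm 1 t 0 = 1 / √3 * (a.k 2 t 0 - a.k 0 t 0) := by
    rw [A.jlm t ht 1, hk, hk]; rfl
  have l2 : a.lm 2 t 0 = 1 / √3 * (a.k 0 t 0 - a.k 1 t 0) := by
    rw [A.jlm t ht 2, hk, hk]; rfl
  have th0 : a.th 0 t 0 = a.th 2 t 0 := A.jth t ht 0 2
  have th1 : a.th 1 t 0 = a.th 2 t 0 := A.jth t ht 1 2
  obtain ⟨c1, s1⟩ := trig23 (a.th 2 t 0)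
  obtain ⟨c0, s0⟩ := trigm23 (a.th 2 t 0)
  have j : (edE a 0).B t 0 + (edE a 1).B t 0 + (edE a 2).B t 0 = 0 := by
    simp only [Ee.B, Ee.F, Ee.s, edE, hX0 1, hX0 2, hY0 1, hY0 2, AFd.al, cang0, cang1, cang2, th0,
      th1, c1, s1, c0, s0, l0, l1, l2, zero_add]
    ring
  -- the mid-point of the cap
  have m : (edE a 1).B t 1 = 0 := by
    obtain ⟨e1, e2⟩ := A.e1 t ht
    have e3 : cang 1 + a.th 1 t 1 = π := by rw [cang1, e1]; ring
    simp only [Ee.B, Ee.F, Ee.s, edE, AFd.al, e3, e2, hX1, Real.sin_pi]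
    ring
  -- the end of the bar
  have b0 : (baE a).B t 0 = 0 := by
    simp only [Ee.B, Ee.s, baE]; ring
  have b1 : (edE a 0).B t 1 + 1 / 2 * (baE a).B t 1 = 0 := by
    obtain ⟨e1, e2⟩ := A.e0 t ht
    obtain ⟨c, s⟩ := trigm23 0
    rw [Real.cos_zero, Real.sin_zero] at c s
    have e4 : a.lm 0 t 1 = -(1 / √3) * a.k 0 t 1 := by rw [e2, AFd.k]
    have e5 : a.ux 0 t 1 = 2 / 3 * √3 * a.k 0 t 1 := by
      simp only [AFd.ux, AFd.al, cang0, e1, c, s, e4, i3]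
      ring
    simp only [Ee.B, Ee.F, Ee.s, edE, baE, AFd.al, cang0, e1, c, s, e4, e5, i3, Real.cos_zero,
      Real.sin_zero, hY1, one_mul]
    ring
  linarith

lemma xb_pos {t : ℝ} (ht : t ∈ Ioo 0 T1) : 0 ≤ a.X 0 t 1 := by
  have z1 : (1:ℝ) ∈ Icc (0:ℝ) 1 := ⟨zero_le_one, le_refl _⟩
  have h1 := (S.hyp.concl_all ht).x0 1 z1
  rw [(S.C.re_eq S.A 0 ht z1).1] at h1
  have h2 := Run7.h661y.rr_pos (S.hyp.ltT ht)
  linarith

/-- the boundary term at the fixed end is bounded -/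
lemma bP_le {t : ℝ} (ht : t ∈ Ioo 0 T1) : (edE a 2).B t 1 ≤ 1 := by
  have ht2 : t < 1 / 2 := ht.2.trans_le S.le
  have hu : 0 < 1 - 2 * t := by linarith
  have hu1 : 1 - 2 * t ≤ 1 := by linarith [ht.1]
  obtain ⟨e1, e2⟩ := S.endp t ht
  have e3 := (S.A.e2 t ht).2
  have hs : (edE a 2).s t 1 ≤ 1002 := by
    simp only [Ee.s, edE, e1, e2]
    have h1 := Real.cos_le_one (a.al 2 t 1)
    have h2 := Real.sin_le_one (a.al 2 t 1)
    have h3 : hh = 1 / 10000 := rfl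
    have h4 : RR = 1001 := rfl
    rw [h3, h4]; linarith
  have hB : (edE a 2).B t 1 = Fg t RR hh * ((edE a 2).s t 1 / (1 - 2 * t)) := by
    simp only [Ee.B, Ee.F, edE, e1, e2, e3, zero_add]
  rw [hB]
  have hF := Fg_pos ht2 RR hh
  have hF2 : Fg t RR hh ≤ (1 - 2 * t) / 1002 := by
    have hsq : 0 < √(1 - 2 * t) := Real.sqrt_pos.2 hu
    have hss : √(1 - 2 * t) * √(1 - 2 * t) = 1 - 2 * t := Real.mul_self_sqrt hu.le
    have hle : √(1 - 2 * t) ≤ 1 := Real.sqrt_le_one.2 hu1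
    rw [Fg]
    set u := 1 - 2 * t with hud
    set z := (RR ^ 2 + hh ^ 2) / (2 * u) with hz
    have hz0 : 500000 / u ≤ z := by
      rw [hz, div_le_div_iff₀ hu (by positivity)]
      have h4 : RR = 1001 := rfl
      rw [h4]
      nlinarith [sq_nonneg hh]
    have hzp : 0 < 500000 / u := by positivity
    have he : z ^ 2 / 2 ≤ Real.exp z := by
      have := Real.quadratic_le_exp_of_nonneg (hzp.le.trans hz0)
      linarith [hzp.le.trans hz0]
    have e4 : Real.exp (-(RR ^ 2 + hh ^ 2) / (2 * u)) = (Real.exp z)⁻¹ := by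
      rw [← Real.exp_neg, hz, neg_div]
    rw [e4, ← mul_inv, inv_le_comm₀ (by positivity) (by positivity), inv_div]
    have h5 : (500000 / u) ^ 2 / 2 ≤ Real.exp z := by
      refine le_trans ?_ he
      have := pow_le_pow_left₀ hzp.le hz0 2
      linarith
    have h6 : √u * ((500000 / u) ^ 2 / 2) ≤ √u * Real.exp z := mul_le_mul_of_nonneg_left h5 hsq.le
    refine le_trans ?_ h6
    rw [div_pow, div_div, mul_div_assoc', div_le_div_iff₀ hu (by positivity)]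
    have h7 : u * u ≤ √u * u := by
      apply mul_le_mul_of_nonneg_right _ hu.le
      nlinarith
    nlinarith
  by_cases hs0 : (edE a 2).s t 1 ≤ 0
  · have : Fg t RR hh * ((edE a 2).s t 1 / (1 - 2 * t)) ≤ 0 :=
      mul_nonpos_of_nonneg_of_nonpos hF.le (div_nonpos_of_nonpos_of_nonneg hs0 hu.le)
    linarith
  · push Not at hs0
    have h8 : Fg t RR hh * ((edE a 2).s t 1 / (1 - 2 * t)) ≤
        (1 - 2 * t) / 1002 * (1002 / (1 - 2 * t)) :=
      mul_le_mul hF2 (div_le_div_of_nonneg_right hs hu.le) (by positivity) (by positivity)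
    refine h8.trans (le_of_eq ?_)
    field_simp

theorem Tht_deriv {t : ℝ} (ht : t ∈ Ioo 0 T1) : ∃ D, HasDerivAt (Tht a) D t ∧ D ≤ -Gt a t + 1 := by
  have A := S.A
  have h0 := (eg_ed A 0).mono S.le ht
  have h1 := (eg_ed A 1).mono S.le ht
  have h2 := (eg_ed A 2).mono S.le ht
  have hb := (eg_ba A).mono S.le ht
  refine ⟨_, ((h0.add h1).add h2).add (hb.const_mul (1 / 2)), ?_⟩
  have h3 := bdry S ht
  have h4 := bP_le S ht
  rw [Gt]
  linarith

lemma Tht_nonneg {t : ℝ} (ht : t ∈ Ioo 0 T1) : 0 ≤ Tht a t := by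
  have h : ∀ i, 0 ≤ (edE a i).Th t := fun i => Ee.Th_nonneg S.le
    (fun t ht p hp => (S.A.pos i t ht p hp).le) ht
  have hb : 0 ≤ (baE a).Th t := Ee.Th_nonneg S.le (fun t ht p hp => xb_pos S ht) ht
  have h0 := h 0
  have h1 := h 1
  have h2 := h 2
  rw [Tht]; linarith

lemma G1_le {t : ℝ} (ht : t ∈ Ioo 0 T1) : (edE a 1).G t ≤ Gt a t ∧ 0 ≤ (edE a 1).G t := by
  have h : ∀ i, 0 ≤ (edE a i).G t := fun i => Ee.G_nonneg S.le
    (fun t ht p hp => (S.A.pos i t ht p hp).le) ht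
  have hb : 0 ≤ (baE a).G t := Ee.G_nonneg S.le (fun t ht p hp => xb_pos S ht) ht
  have h0 := h 0
  have h1 := h 1
  have h2 := h 2
  rw [Gt]; constructor <;> linarith

end

end Run7.h661v
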