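import Pool.Agent.Run7.h661.V.Mono2
import Pool.Agent.Run7.h661.Y.Seq

/-!
# Selection of times
-/

open Set Filter Topology
open scoped Real ContDiff

namespace Run7.h661v

open Run7.h661x
open Run7.h661y (cang HypE xa ya yM rr rr_pos tendsto_rr Jq mono_of_deriv hasDerivAt_rr
  sqrt3_bounds)

section
variable {g : Fin 3 → ℝ → ℝ → ℂ} {a : AFd} (S : St (1 / 2) a g)
include S

lemma hE : HypE (1 / 2) (1 / 4) RR hh KQ g := ⟨S.hyp, by norm_num, by norm_num⟩

theorem select : ∃ M, 0 < M ∧ ∀ δ > 0, ∀ t1 ∈ Ico (1 / 4 : ℝ) (1 / 2),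
    ∃ t ∈ Ico t1 (1 / 2), xa g t < M * rr (1 / 2) t ∧ rr (1 / 2) t ^ 2 * Gt a t < δ := by
  have H := hE S
  obtain ⟨C, hC, hJC⟩ := H.J_le
  have hpi := Real.pi_pos
  have s2 := sqrt3_bounds.2
  set C1 := √3 / 2 + 3 * C with hC1
  have hC1p : 0 < C1 := by positivity
  refine ⟨3 / π * (C1 + 2), by positivity, fun δ hδ t1 ht1 => ?_⟩
  by_contra hcon
  push Not at hcon
  set B := (C1 + 2) / δ with hB
  have hBp : 0 < B := by positivity
  have hd : ∀ τ ∈ Ico (1 / 4 : ℝ) (1 / 2), ∃ J', HasDerivAt (Jq g) J' τ ∧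
      J' ≤ -(π / 3 * xa g τ) + yM g τ :=
    fun τ hτ => H.qf.Jq_deriv (H.mem hτ) (H.secAt hτ)
  choose! J' hJ' hJ'le using hd
  have hd2 : ∀ τ ∈ Ico (1 / 4 : ℝ) (1 / 2), ∃ D, HasDerivAt (Tht a) D τ ∧ D ≤ -Gt a τ + 1 :=
    fun τ hτ => Tht_deriv S (H.mem hτ)
  choose! D hD hDle using hd2
  -- start late
  have hr0 := tendsto_rr (1 / 2)
  have hev : ∀ᶠ t in 𝓝[<] (1 / 2 : ℝ), B * rr (1 / 2) t ^ 2 < 1 := by
    have h1 : Tendsto (fun t => B * rr (1 / 2) t ^ 2) (𝓝[<] (1 / 2)) (𝓝 0) := by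
      simpa using (hr0.pow 2).const_mul B
    exact h1.eventually (gt_mem_nhds one_pos)
  have hI1 : ∀ᶠ t in 𝓝[<] (1 / 2 : ℝ), t ∈ Ico t1 (1 / 2) := Ico_mem_nhdsLT ht1.2
  obtain ⟨t2, ht2, hBt⟩ := (hI1.and hev).exists
  have hmem : ∀ x, t2 ≤ x → x < 1 / 2 → x ∈ Ico (1 / 4 : ℝ) (1 / 2) := fun x h1 h2 =>
    ⟨ht1.1.trans (ht2.1.trans h1), h2⟩
  have key : ∀ s ∈ Ico t2 (1 / 2 : ℝ), Jq g s / rr (1 / 2) s ^ 3 + B * Tht a s -
      Real.log (rr (1 / 2) s) ≤ Jq g t2 / rr (1 / 2) t2 ^ 3 + B * Tht a t2 -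
      Real.log (rr (1 / 2) t2) := by
    intro s hs
    have hder : ∀ x ∈ Icc t2 s, HasDerivAt (fun x => -(Jq g x / rr (1 / 2) x ^ 3 + B * Tht a x -
        Real.log (rr (1 / 2) x)))
        (-((J' x * rr (1 / 2) x ^ 3 - Jq g x * (3 * rr (1 / 2) x ^ 2 * (-1 / rr (1 / 2) x))) /
          (rr (1 / 2) x ^ 3) ^ 2 + B * D x - (-1 / rr (1 / 2) x) / rr (1 / 2) x)) x := by
      intro x hx
      have hxI := hmem x hx.1 (hx.2.trans_lt hs.2)
      have hr := rr_pos hxI.2
      have d1 : HasDerivAt (fun x => rr (1 / 2) x ^ 3) (3 * rr (1 / 2) x ^ 2 *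
        (-1 / rr (1 / 2) x)) x := ((hasDerivAt_rr hxI.2).pow 3).congr_deriv (by simp)
      have d2 := (hJ' x hxI).div d1 (by positivity)
      have d3 := (hD x hxI).const_mul B
      have d4 := (hasDerivAt_rr hxI.2).log hr.ne'
      exact ((d2.add d3).sub d4).neg
    have := mono_of_deriv hder (fun x hx => ?_) (⟨le_refl _, hs.1⟩ : t2 ∈ Icc t2 s)
      ⟨hs.1, le_refl _⟩ hs.1
    · linarith
    · have hxI := hmem x hx.1 (hx.2.trans_lt hs.2)
      have hr := rr_pos hxI.2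
      have hyM := H.yM_le hxI
      have hJx := hJ'le x hxI
      have hDx := hDle x hxI
      have hJC' := hJC x hxI
      have hxa := H.qf.xa_nonneg (H.mem hxI) (H.secAt hxI)
      have hG := (G1_le S (H.mem hxI)).2.trans (G1_le S (H.mem hxI)).1
      have hBx : B * rr (1 / 2) x ^ 2 ≤ 1 := by
        refine le_trans ?_ hBt.le
        apply mul_le_mul_of_nonneg_left _ hBp.le
        apply pow_le_pow_left₀ hr.le
        exact Real.sqrt_le_sqrt (by linarith [hx.1])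
      have hc := hcon x ⟨ht2.1.trans hx.1, hxI.2⟩
      set r := rr (1 / 2) x with hrd
      have e1 : (J' x * r ^ 3 - Jq g x * (3 * r ^ 2 * (-1 / r))) / (r ^ 3) ^ 2 + B * D x -
          (-1 / r) / r = (J' x * r ^ 2 + 3 * Jq g x + B * D x * r ^ 5 + r ^ 3) / r ^ 5 := by
        field_simp
        ring
      rw [e1, ← neg_div]
      apply div_nonneg _ (by positivity)
      have k1 : J' x * r ^ 2 ≤ (-(π / 3 * xa g x) + √3 / 2 * r) * r ^ 2 :=
        mul_le_mul_of_nonneg_right (by linarith) (sq_nonneg r)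
      have k2 : B * D x * r ^ 5 ≤ B * (-Gt a x + 1) * r ^ 5 := by
        apply mul_le_mul_of_nonneg_right _ (by positivity)
        exact mul_le_mul_of_nonneg_left hDx hBp.le
      have k3 : B * r ^ 5 ≤ r ^ 3 := by
        have : 0 < r ^ 3 := by positivity
        nlinarith
      have k4 : π / 3 * xa g x * r ^ 2 + B * Gt a x * r ^ 5 ≥ (C1 + 2) * r ^ 3 := by
        by_cases hx1 : xa g x < 3 / π * (C1 + 2) * r
        · have h2 := hc hx1
          have h3 : (C1 + 2) * r ^ 3 ≤ B * Gt a x * r ^ 5 := by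
            have e2 : B * Gt a x * r ^ 5 = B * (r ^ 2 * Gt a x) * r ^ 3 := by ring
            rw [e2]
            apply mul_le_mul_of_nonneg_right _ (by positivity)
            have e3 : C1 + 2 = B * δ := by rw [hB]; field_simp
            rw [e3]
            exact mul_le_mul_of_nonneg_left h2 hBp.le
          have : 0 ≤ π / 3 * xa g x * r ^ 2 := by positivity
          linarith
        · push Not at hx1
          have h3 : (C1 + 2) * r ^ 3 ≤ π / 3 * xa g x * r ^ 2 := by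
            have e2 : (C1 + 2) * r ^ 3 = π / 3 * (3 / π * (C1 + 2) * r) * r ^ 2 := by
              field_simp
            rw [e2]
            apply mul_le_mul_of_nonneg_right _ (sq_nonneg r)
            exact mul_le_mul_of_nonneg_left hx1 (by positivity)
          have : 0 ≤ B * Gt a x * r ^ 5 := by positivity
          linarith
      have k5 : 0 < r ^ 3 := by positivity
      nlinarith
  -- contradiction
  have hlog : Tendsto (fun t => Real.log (rr (1 / 2) t)) (𝓝[<] (1 / 2)) atBot := by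
    have h1 : Tendsto (rr (1 / 2)) (𝓝[<] (1 / 2 : ℝ)) (𝓝[>] 0) :=
      tendsto_nhdsWithin_iff.2 ⟨hr0, by
        filter_upwards [self_mem_nhdsWithin] with s hs
        exact rr_pos hs⟩
    exact Real.tendsto_log_nhdsGT_zero.comp h1
  set C3 := Jq g t2 / rr (1 / 2) t2 ^ 3 + B * Tht a t2 - Real.log (rr (1 / 2) t2) with hC3
  have hI2 : ∀ᶠ t in 𝓝[<] (1 / 2 : ℝ), t ∈ Ico t2 (1 / 2) := Ico_mem_nhdsLT ht2.2
  obtain ⟨s, hs, hls⟩ := (hI2.and (hlog.eventually (eventually_lt_atBot (-C3)))).exists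
  have h1 := key s hs
  have hsI := hmem s hs.1 hs.2
  have h2 := H.qf.Jq_nonneg (H.mem hsI) (H.secAt hsI)
  have h3 := Tht_nonneg S (H.mem hsI)
  have hr := rr_pos hsI.2
  have h4 : 0 ≤ Jq g s / rr (1 / 2) s ^ 3 := by positivity
  have h5 : 0 ≤ B * Tht a s := by positivity
  linarith

end

end Run7.h661v
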